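import Mathlib

/-!
# Mapping classes, circles and Dehn multi-twists on a surface

`X` is a surface (a topological space) and `B` is the set of its boundary points.  Everything is in
the topological category: homeomorphisms and isotopies through homeomorphisms.
-/

set_option autoImplicit false

open Set Topology

namespace Pool.Agent.Helper57.MCG

section general

variable {X : Type} [TopologicalSpace X]

/-- Two self-homeomorphisms are isotopic if they are joined by a continuous path of
self-homeomorphisms. -/
def Isotopic (f g : X ≃ₜ X) : Prop :=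
  ∃ h : unitInterval → (X ≃ₜ X), Continuous (fun q : unitInterval × X => h q.1 q.2) ∧
    h 0 = f ∧ h 1 = g

lemma Isotopic.refl (f : X ≃ₜ X) : Isotopic f f :=
  ⟨fun _ => f, f.continuous.comp continuous_snd, rfl, rfl⟩

lemma Isotopic.mul {f f' g g' : X ≃ₜ X} (h1 : Isotopic f f') (h2 : Isotopic g g') :
    Isotopic (f * g) (f' * g') := by
  obtain ⟨h, hc, h0, h1⟩ := h1
  obtain ⟨k, kc, k0, k1⟩ := h2
  refine ⟨fun t => h t * k t, ?_, by simp [h0, k0], by simp [h1, k1]⟩
  have : (fun q : unitInterval × X => (h q.1 * k q.1) q.2) =
      (fun q : unitInterval × X => h q.1 q.2) ∘ (fun q : unitInterval × X => (q.1, k q.1 q.2)) := by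
    funext q; rfl
  rw [this]
  exact hc.comp (continuous_fst.prodMk kc)

lemma Isotopic.symm {f g : X ≃ₜ X} (h1 : Isotopic f g) : Isotopic g f := by
  obtain ⟨h, hc, h0, h1⟩ := h1
  refine ⟨fun t => h (unitInterval.symm t), ?_, by simp [h1], by simp [h0]⟩
  exact hc.comp ((unitInterval.continuous_symm.comp continuous_fst).prodMk continuous_snd)

variable (X) in
/-- The group of self-homeomorphisms isotopic to the identity. -/
def Homeo0 : Subgroup (X ≃ₜ X) where
  carrier := {f | Isotopic 1 f}
  one_mem' := Isotopic.refl 1
  mul_mem' {f g} hf hg := by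
    have := Isotopic.mul hf hg
    rwa [one_mul] at this
  inv_mem' {f} hf := by
    have := (Isotopic.refl f⁻¹).mul hf
    rw [mul_one, inv_mul_cancel] at this
    exact this.symm

instance : (Homeo0 X).Normal where
  conj_mem f hf g := by
    have := ((Isotopic.refl g).mul hf).mul (Isotopic.refl g⁻¹)
    rwa [mul_one, mul_inv_cancel] at this

variable (X) in
/-- The extended mapping class group: all isotopy classes of self-homeomorphisms. -/
abbrev MapClass : Type := (X ≃ₜ X) ⧸ Homeo0 X

/-- A circle on the surface with boundary `B`: the image of a continuous injective map from the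
unit circle, contained in the interior of the surface. -/
def IsCircle (B c : Set X) : Prop :=
  (∃ γ : C(Circle, X), Function.Injective γ ∧ range γ = c) ∧ Disjoint c B

/-- The circle `c` bounds an embedded closed disk. -/
def BoundsDisk (c : Set X) : Prop :=
  ∃ d : C(Metric.closedBall (0 : ℂ) 1, X), Function.Injective d ∧ d '' {z | ‖(z : ℂ)‖ = 1} = c

/-- The circle `c` can be deformed into the boundary `B`: its inclusion is homotopic to a map with
values in `B`. -/
def DeformsInto (c B : Set X) : Prop :=
  ∃ H : C(unitInterval × c, X), (∀ x, H (0, x) = x) ∧ ∀ x, H (1, x) ∈ B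

/-- A nontrivial circle: it neither bounds a disk nor can be deformed into the boundary. -/
def IsNontrivialCircle (B c : Set X) : Prop :=
  IsCircle B c ∧ ¬ BoundsDisk c ∧ ¬ DeformsInto c B

/-- Two circles are isotopic if an ambient isotopy of the surface carries one to the other. -/
def CirclesIsotopic (c c' : Set X) : Prop := ∃ h ∈ Homeo0 X, h '' c = c'

/-- The geometric intersection number: the least number of common points of circles isotopic to
`c` and `d`. -/
noncomputable def geomInt (c d : Set X) : ℕ∞ :=
  sInf {n | ∃ c' d' : Set X, CirclesIsotopic c c' ∧ CirclesIsotopic d d' ∧ n = (c' ∩ d').encard}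

/-- A set `A` of circles fills the surface if every nontrivial circle has nonzero geometric
intersection number with some member of `A`. -/
def Fills (B : Set X) (A : Set (Set X)) : Prop :=
  ∀ c, IsNontrivialCircle B c → ∃ a ∈ A, geomInt c a ≠ 0

/-- `T` is a Dehn twist (left or right) along the circle `a`: there is an annulus with core `a`,
embedded in the interior, on which `T` is the standard full twist, and `T` is the identity
elsewhere. The handedness of the twist is that of the embedding, which is arbitrary. -/
def IsDehnTwist (B a : Set X) (T : X ≃ₜ X) : Prop :=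
  ∃ φ : C(Circle × unitInterval, X), Function.Injective φ ∧ Disjoint (range φ) B ∧
    φ '' {q | (q.2 : ℝ) = 1 / 2} = a ∧
    (∀ q, T (φ q) = φ (q.1 * Circle.exp (2 * Real.pi * q.2), q.2)) ∧
    ∀ x, x ∉ range φ → T x = x

/-- `t` is a Dehn multi-twist along the circles `α 0, ..., α (n-1)`: these are pairwise disjoint,
pairwise non-isotopic nontrivial circles, and `t` is the class of a product of Dehn twists along
them, the handedness (the sign of the exponent) of each factor being arbitrary. -/
def IsDehnMultitwist (B : Set X) (n : ℕ) (α : Fin n → Set X) (t : MapClass X) : Prop :=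
  0 < n ∧ (∀ i, IsNontrivialCircle B (α i)) ∧
    (∀ i j, i ≠ j → Disjoint (α i) (α j) ∧ ¬ CirclesIsotopic (α i) (α j)) ∧
    ∃ τ : Fin n → (X ≃ₜ X), (∀ i, IsDehnTwist B (α i) (τ i)) ∧
      t = (((List.ofFn τ).prod : X ≃ₜ X) : MapClass X)

/-- The circles `f ^ m (α i)`, for all representatives of the mapping class `f`. -/
def orbitCircles {n : ℕ} (f : MapClass X) (α : Fin n → Set X) : Set (Set X) :=
  {c | ∃ F : X ≃ₜ X, (F : MapClass X) = f ∧ ∃ (m : ℤ) (i : Fin n), c = (F ^ m : X ≃ₜ X) '' α i}

/-- A mapping class is reducible if it has a representative which maps a nonempty finite family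
of pairwise disjoint, pairwise non-isotopic nontrivial circles to itself. -/
def IsReducible (B : Set X) (g : MapClass X) : Prop :=
  ∃ C : Set (Set X), C.Nonempty ∧ C.Finite ∧ (∀ c ∈ C, IsNontrivialCircle B c) ∧
    (∀ c ∈ C, ∀ d ∈ C, c ≠ d → Disjoint c d ∧ ¬ CirclesIsotopic c d) ∧
    ∃ F : X ≃ₜ X, (F : MapClass X) = g ∧ ∀ c ∈ C, F '' c ∈ C

/-- Pseudo-Anosov classes, in the sense of the Nielsen-Thurston classification: the classes which
are neither periodic nor reducible. -/
def IsPseudoAnosov (B : Set X) (g : MapClass X) : Prop :=
  ¬ IsOfFinOrder g ∧ ¬ IsReducible B g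

/-- The set of all integers `j` such that `t ^ j * f` is not pseudo-Anosov. -/
def exceptional (B : Set X) (f t : MapClass X) : Set ℤ :=
  {j | ¬ IsPseudoAnosov B (t ^ j * f)}

end general

end Pool.Agent.Helper57.MCG
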