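import Pool.Agent.Helper57.MCG.Push

/-!
# The eight circles fill the sphere with eight holes
-/

set_option autoImplicit false

open Set Topology

namespace Pool.Agent.Helper57.MCG

instance : ConnectedSpace Circle := by
  have : PreconnectedSpace Circle := by
    constructor
    have h : Set.range Circle.exp = Set.univ := by
      rw [Set.eq_univ_iff_forall]
      intro z
      exact ⟨_, Circle.exp_arg z⟩
    rw [← h]
    exact isPreconnected_range Circle.exp.continuous
  exact ⟨inferInstance⟩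

/-- the eight round circles -/
def alpha (i : ZMod 8) : Set S := {v | xx i v.1.1 = 1 / 2}

/-- strips on the inner side -/
def TP (i : ZMod 8) : Finset (ZMod 8) := {i + 6, i + 7, i, i + 1}

/-- strips on the outer side -/
def TA (i : ZMod 8) : Finset (ZMod 8) := Finset.univ \ {i, i + 7}

lemma side_P {i a : ZMod 8} {v : S} (h : 0 < xx i v.1.1) (ha : 0 < kap a v.1) : a ∈ TP i := by
  have hq := q_pos
  obtain ⟨h1, h2⟩ := kap_pos_sec ha
  rcases shift_cases i a with h' | h' | h' | h' | h' | h' | h' | h' <;> subst h'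
  · simp [TP]
  · simp [TP]
  · exfalso; rw [yy_add_two] at h1; linarith
  · exfalso
    rw [yy_add_three] at h1 h2
    rw [xx_add_three] at h2
    nlinarith
  · exfalso
    rw [yy_add_four] at h1 h2
    rw [xx_add_four] at h2
    linarith
  · exfalso
    rw [yy_add_five] at h1 h2
    rw [xx_add_five] at h2
    nlinarith
  · simp [TP]
  · simp [TP]

lemma side_A {i a : ZMod 8} {v : S} (h : xx i v.1.1 ≤ 1 / 2) (ha : 0 < kap a v.1) :
    a ∈ TA i := by
  have hq := q_pos
  have hsph := v.2.1
  rw [← xx_sq_add_yy_sq i] at hsph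
  rw [kap_pos_iff] at ha
  have hz := abs_nonneg v.1.2
  have hz2 : |v.1.2| ^ 2 = v.1.2 ^ 2 := sq_abs _
  simp only [TA, Finset.mem_sdiff, Finset.mem_univ, true_and, Finset.mem_insert,
    Finset.mem_singleton, not_or]
  constructor
  · intro h'
    subst h'
    rw [yy_add_one] at ha
    obtain ⟨h1, h2⟩ := ha
    have h3 : yy a v.1.1 < xx a v.1.1 := by nlinarith
    have h4 : v.1.2 ^ 2 < yy a v.1.1 ^ 2 := by
      rw [← hz2]
      exact pow_lt_pow_left₀ h1 hz two_ne_zero
    have h5 : yy a v.1.1 ^ 2 ≤ xx a v.1.1 ^ 2 :=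
      pow_le_pow_left₀ (by linarith) h3.le 2
    nlinarith
  · intro h'
    subst h'
    rw [show i + 7 + 1 = i + 8 by ring, show (i + 8 : ZMod 8) = i by
      have : (8 : ZMod 8) = 0 := by decide
      rw [this, add_zero], yy_add_seven] at ha
    obtain ⟨h1, h2⟩ := ha
    have h3 : -yy i v.1.1 < xx i v.1.1 := by nlinarith
    have h4 : v.1.2 ^ 2 < (-yy i v.1.1) ^ 2 := by
      rw [← hz2]
      exact pow_lt_pow_left₀ h2 hz two_ne_zero
    have h5 : (-yy i v.1.1) ^ 2 ≤ xx i v.1.1 ^ 2 :=
      pow_le_pow_left₀ (by linarith) h3.le 2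
    nlinarith

/-- retraction of the index set -/
def rho (T : Finset (ZMod 8)) (t : ZMod 8) (a : ZMod 8) : ZMod 8 := if a ∈ T then a else t

/-- the loop `γ` can be pushed into the strips with index in `T` -/
def Good (γ : C(Circle, S)) (T : Finset (ZMod 8)) : Prop :=
  ∀ t ∈ T, ContinuousMap.Homotopic γ ((R (rho T t)).comp γ)

lemma good_of_side {γ γ' : C(Circle, S)} (h : ContinuousMap.Homotopic γ γ')
    {T : Finset (ZMod 8)} (hs : ∀ θ a, 0 < kap a (γ' θ).1 → a ∈ T) : Good γ T := by
  intro t _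
  have h1 : (R (rho T t)).comp γ' = (R id).comp γ' := by
    ext θ : 1
    apply Subtype.ext
    change nrm (G (rho T t) (γ' θ).1) = nrm (G id (γ' θ).1)
    congr 1
    unfold G
    congr 1
    apply Finset.sum_congr rfl
    intro a _
    by_cases ha : 0 < kap a (γ' θ).1
    · have : rho T t a = a := by
        unfold rho
        rw [if_pos (hs θ a ha)]
      rw [this]
      rfl
    · have : kap a (γ' θ).1 = 0 := le_antisymm (not_lt.mp ha) (kap_nonneg _ _)
      rw [this, zero_smul, zero_smul]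
  have h2 : ContinuousMap.Homotopic ((ContinuousMap.id S).comp γ') ((R id).comp γ') :=
    ContinuousMap.Homotopic.comp R_id (ContinuousMap.Homotopic.refl γ')
  rw [ContinuousMap.id_comp, ← h1] at h2
  exact (h.trans h2).trans (ContinuousMap.Homotopic.comp (ContinuousMap.Homotopic.refl _) h.symm)

lemma good_inter {γ : C(Circle, S)} {T T' : Finset (ZMod 8)} (h : Good γ T) (h' : Good γ T') :
    Good γ (T ∩ T') := by
  intro t ht
  rw [Finset.mem_inter] at ht
  have h1 := h t ht.1
  have h2 := h' t ht.2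
  have h3 : rho T t ∘ rho T' t = rho (T ∩ T') t := by
    funext a
    simp only [Function.comp_apply, rho, Finset.mem_inter]
    by_cases hT' : a ∈ T'
    · simp [hT']
    · simp [hT', ht.1]
  rw [← h3]
  have h4 : ContinuousMap.Homotopic ((R (rho T t)).comp γ)
      ((R (rho T t)).comp ((R (rho T' t)).comp γ)) :=
    ContinuousMap.Homotopic.comp (ContinuousMap.Homotopic.refl _) h2
  rw [← ContinuousMap.comp_assoc] at h4
  exact (h1.trans h4).trans
    (ContinuousMap.Homotopic.comp (R_comp _ _) (ContinuousMap.Homotopic.refl γ))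

lemma good_final {γ : C(Circle, S)} (h : ∀ i, Good γ (TP i) ∨ Good γ (TA i)) :
    ∃ (b : ZMod 8) (T : Finset (ZMod 8)), T.Nonempty ∧ (∀ c ∈ T, c = b ∨ c + 1 = b) ∧
      Good γ T := by
  by_cases hP : ∃ i, Good γ (TP i)
  · obtain ⟨i, hi⟩ := hP
    rcases h (i + 2) with h2 | h2
    · refine ⟨i + 1, TP i ∩ TP (i + 2), ?_, ?_, good_inter hi h2⟩
      · clear hi h2; revert i; decide
      · clear hi h2; revert i; decide
    · rcases h (i + 1) with h1 | h1
      · refine ⟨i, (TP i ∩ TA (i + 2)) ∩ TP (i + 1), ?_, ?_, good_inter (good_inter hi h2) h1⟩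
        · clear hi h2 h1; revert i; decide
        · clear hi h2 h1; revert i; decide
      · refine ⟨i + 7, (TP i ∩ TA (i + 2)) ∩ TA (i + 1), ?_, ?_,
          good_inter (good_inter hi h2) h1⟩
        · clear hi h2 h1; revert i; decide
        · clear hi h2 h1; revert i; decide
  · push Not at hP
    have hA : ∀ i, Good γ (TA i) := fun i => (h i).resolve_left (hP i)
    refine ⟨7, (TA 1 ∩ TA 3) ∩ TA 5, ?_, ?_, good_inter (good_inter (hA 1) (hA 3)) (hA 5)⟩
    · decide
    · decide

/-- homeomorphisms isotopic to the identity do not change homotopy classes -/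
lemma homotopic_of_mem {X Y : Type} [TopologicalSpace X] [TopologicalSpace Y] {h : X ≃ₜ X}
    (hh : h ∈ Homeo0 X) (γ : C(Y, X)) :
    ContinuousMap.Homotopic γ ((h : C(X, X)).comp γ) := by
  obtain ⟨k, kc, k0, k1⟩ := hh
  refine ⟨⟨⟨fun p => k p.1 (γ p.2), ?_⟩, ?_, ?_⟩⟩
  · exact kc.comp (continuous_fst.prodMk (γ.continuous.comp continuous_snd))
  · intro y
    change k 0 (γ y) = γ y
    rw [k0]
    rfl
  · intro y
    change k 1 (γ y) = h (γ y)
    rw [k1]

/-- a loop disjoint from one of the circles lies on one side of it -/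
lemma side_cases {γ' : C(Circle, S)} {i : ZMod 8} (h : ∀ θ, γ' θ ∉ alpha i) :
    (∀ θ, 1 / 2 < xx i (γ' θ).1.1) ∨ (∀ θ, xx i (γ' θ).1.1 < 1 / 2) := by
  have hc : Continuous (fun θ => xx i (γ' θ).1.1) :=
    (continuous_xx i).comp (continuous_fst.comp (continuous_subtype_val.comp γ'.continuous))
  by_contra hcon
  push Not at hcon
  obtain ⟨⟨θ1, h1⟩, ⟨θ2, h2⟩⟩ := hcon
  obtain ⟨θ, hθ⟩ := mem_range_of_exists_le_of_exists_ge hc ⟨θ1, h1⟩ ⟨θ2, h2⟩
  exact h θ hθ

lemma exists_disjoint_of_geomInt {X : Type} [TopologicalSpace X] {c d : Set X}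
    (h : geomInt c d = 0) :
    ∃ c' d' : Set X, CirclesIsotopic c c' ∧ CirclesIsotopic d d' ∧ Disjoint c' d' := by
  have hne : {n : ℕ∞ | ∃ c' d' : Set X, CirclesIsotopic c c' ∧ CirclesIsotopic d d' ∧
      n = (c' ∩ d').encard}.Nonempty :=
    ⟨_, c, d, ⟨1, (Homeo0 X).one_mem, Set.image_id c⟩, ⟨1, (Homeo0 X).one_mem, Set.image_id d⟩,
      rfl⟩
  have h1 := csInf_mem hne
  unfold geomInt at h
  rw [h] at h1
  obtain ⟨c', d', h2, h3, h4⟩ := h1
  refine ⟨c', d', h2, h3, ?_⟩
  rw [Set.disjoint_iff_inter_eq_empty, ← Set.encard_eq_zero]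
  exact h4.symm

/-- an injective loop with zero intersection numbers with all eight circles can be deformed
into the boundary -/
lemma deform_of_zero {c : Set S} (γ : C(Circle, S)) (hγ : Function.Injective γ)
    (hc : range γ = c) (h : ∀ i, geomInt c (alpha i) = 0) : DeformsInto c bdS := by
  have hgood : ∀ i, Good γ (TP i) ∨ Good γ (TA i) := by
    intro i
    obtain ⟨c', d', ⟨h1, hh1, rfl⟩, ⟨k1, hk1, rfl⟩, hdisj⟩ := exists_disjoint_of_geomInt (h i)
    have hmem : k1⁻¹ * h1 ∈ Homeo0 S := (Homeo0 S).mul_mem ((Homeo0 S).inv_mem hk1) hh1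
    have hom := homotopic_of_mem hmem γ
    set γ' : C(Circle, S) := ((k1⁻¹ * h1 : S ≃ₜ S) : C(S, S)).comp γ with hγ'
    have hoff : ∀ θ, γ' θ ∉ alpha i := by
      intro θ hθ
      have e1 : γ' θ = k1.symm (h1 (γ θ)) := rfl
      have e2 : k1 (γ' θ) = h1 (γ θ) := by rw [e1, Homeomorph.apply_symm_apply]
      rw [Set.disjoint_left] at hdisj
      refine hdisj (a := h1 (γ θ)) ⟨γ θ, ?_, rfl⟩ ⟨γ' θ, hθ, e2⟩
      rw [← hc]
      exact ⟨θ, rfl⟩
    rcases side_cases hoff with hside | hside
    · left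
      apply good_of_side hom
      intro θ a ha
      exact side_P (by have := hside θ; linarith) ha
    · right
      apply good_of_side hom
      intro θ a ha
      exact side_A (hside θ).le ha
  obtain ⟨b, T, ⟨t, ht⟩, hT, hgT⟩ := good_final hgood
  have h1 := hgT t ht
  obtain ⟨g, hg, hgR⟩ := push b (rho T t) (by
    intro a
    unfold rho
    split_ifs with ha
    · exact hT a ha
    · exact hT t ht)
  have h2 : ContinuousMap.Homotopic γ (g.comp γ) :=
    h1.trans (ContinuousMap.Homotopic.comp hgR (ContinuousMap.Homotopic.refl γ))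
  obtain ⟨K⟩ := h2
  subst hc
  -- inverse of the parametrization
  let e : Circle ≃ range γ := Equiv.ofInjective γ hγ
  have he : Continuous e := by
    apply Continuous.subtype_mk
    exact γ.continuous
  let e' : Circle ≃ₜ range γ := he.homeoOfEquivCompactToT2
  have he' : ∀ x, γ (e'.symm x) = x := by
    intro x
    have := e'.apply_symm_apply x
    exact congrArg Subtype.val this
  refine ⟨⟨fun p => K (p.1, e'.symm p.2), ?_⟩, ?_, ?_⟩
  · exact K.continuous.comp (continuous_fst.prodMk (e'.symm.continuous.comp continuous_snd))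
  · intro x
    change K (0, e'.symm x) = x
    rw [K.apply_zero, he']
  · intro x
    change K (1, e'.symm x) ∈ bdS
    rw [K.apply_one]
    exact hg _

/-- the eight circles fill -/
lemma fills_alpha (A : Set (Set S)) (hA : ∀ i, alpha i ∈ A) : Fills bdS A := by
  intro c hc
  by_contra hcon
  push Not at hcon
  obtain ⟨⟨⟨γ, hγ, hr⟩, -⟩, -, h3⟩ := hc
  exact h3 (deform_of_zero γ hγ hr fun i => hcon _ (hA i))

end Pool.Agent.Helper57.MCG
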