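import Pool.Agent.Helper57.MCG.Twist

/-!
# Four circles fill, and the half turn
-/

set_option autoImplicit false

open Set Topology

namespace Pool.Agent.Helper57.MCG

/-! ### four circles fill -/

lemma good_of_geomInt {c : Set S} (γ : C(Circle, S)) (hc : range γ = c) {i : ZMod 8}
    (h : geomInt c (alpha i) = 0) : Good γ (TP i) ∨ Good γ (TA i) := by
  obtain ⟨c', d', ⟨h1, hh1, rfl⟩, ⟨k1, hk1, rfl⟩, hdisj⟩ := exists_disjoint_of_geomInt h
  have hmem : k1⁻¹ * h1 ∈ Homeo0 S := (Homeo0 S).mul_mem ((Homeo0 S).inv_mem hk1) hh1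
  have hom := homotopic_of_mem hmem γ
  set γ' : C(Circle, S) := ((k1⁻¹ * h1 : S ≃ₜ S) : C(S, S)).comp γ with hγ'
  have hoff : ∀ θ, γ' θ ∉ alpha i := by
    intro θ hθ
    have e1 : γ' θ = k1.symm (h1 (γ θ)) := rfl
    have e2 : k1 (γ' θ) = h1 (γ θ) := by rw [e1, Homeomorph.apply_symm_apply]
    rw [Set.disjoint_left] at hdisj
    refine hdisj (a := h1 (γ θ)) ⟨γ θ, ?_, rfl⟩ ⟨γ' θ, hθ, e2⟩
    rw [← hc]
    exact ⟨θ, rfl⟩
  rcases side_cases hoff with hside | hside
  · left
    apply good_of_side hom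
    intro θ a ha
    exact side_P (by have := hside θ; linarith) ha
  · right
    apply good_of_side hom
    intro θ a ha
    exact side_A (hside θ).le ha

lemma good_final_four {γ : C(Circle, S)}
    (h : ∀ i ∈ ({0, 2, 4, 6} : Finset (ZMod 8)), Good γ (TP i) ∨ Good γ (TA i)) :
    ∃ (b : ZMod 8) (T : Finset (ZMod 8)), T.Nonempty ∧ (∀ c ∈ T, c = b ∨ c + 1 = b) ∧
      Good γ T := by
  by_cases hP : ∃ i ∈ ({0, 2, 4, 6} : Finset (ZMod 8)), Good γ (TP i)
  · obtain ⟨i, him, hi⟩ := hP
    have hm2 : i + 2 ∈ ({0, 2, 4, 6} : Finset (ZMod 8)) := by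
      clear hi; revert i; decide
    have hm6 : i + 6 ∈ ({0, 2, 4, 6} : Finset (ZMod 8)) := by
      clear hi hm2; revert i; decide
    rcases h (i + 2) hm2 with h2 | h2
    · refine ⟨i + 1, TP i ∩ TP (i + 2), ?_, ?_, good_inter hi h2⟩
      · clear hi h2 him hm2 hm6; revert i; decide
      · clear hi h2 him hm2 hm6; revert i; decide
    · rcases h (i + 6) hm6 with h1 | h1
      · refine ⟨i + 7, TP i ∩ TP (i + 6), ?_, ?_, good_inter hi h1⟩
        · clear hi h2 h1 him hm2 hm6; revert i; decide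
        · clear hi h2 h1 him hm2 hm6; revert i; decide
      · refine ⟨i, (TP i ∩ TA (i + 2)) ∩ TA (i + 6), ?_, ?_,
          good_inter (good_inter hi h2) h1⟩
        · clear hi h2 h1 him hm2 hm6; revert i; decide
        · clear hi h2 h1 him hm2 hm6; revert i; decide
  · push Not at hP
    have hA : ∀ i ∈ ({0, 2, 4, 6} : Finset (ZMod 8)), Good γ (TA i) :=
      fun i him => (h i him).resolve_left (hP i him)
    refine ⟨6, (TA 0 ∩ TA 2) ∩ TA 4, ?_, ?_, good_inter (good_inter (hA 0 (by decide))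
      (hA 2 (by decide))) (hA 4 (by decide))⟩
    · decide
    · decide

/-- an injective loop with zero intersection numbers with four of the circles can be deformed
into the boundary -/
lemma deform_of_zero_four {c : Set S} (γ : C(Circle, S)) (hγ : Function.Injective γ)
    (hc : range γ = c)
    (h : ∀ i ∈ ({0, 2, 4, 6} : Finset (ZMod 8)), geomInt c (alpha i) = 0) :
    DeformsInto c bdS := by
  obtain ⟨b, T, ⟨t, ht⟩, hT, hgT⟩ :=
    good_final_four (γ := γ) fun i him => good_of_geomInt γ hc (h i him)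
  have h1 := hgT t ht
  obtain ⟨g, hg, hgR⟩ := push b (rho T t) (by
    intro a
    unfold rho
    split_ifs with ha
    · exact hT a ha
    · exact hT t ht)
  have h2 : ContinuousMap.Homotopic γ (g.comp γ) :=
    h1.trans (ContinuousMap.Homotopic.comp hgR (ContinuousMap.Homotopic.refl γ))
  obtain ⟨K⟩ := h2
  subst hc
  let e : Circle ≃ range γ := Equiv.ofInjective γ hγ
  have he : Continuous e := by
    apply Continuous.subtype_mk
    exact γ.continuous
  let e' : Circle ≃ₜ range γ := he.homeoOfEquivCompactToT2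
  have he' : ∀ x, γ (e'.symm x) = x := by
    intro x
    have := e'.apply_symm_apply x
    exact congrArg Subtype.val this
  refine ⟨⟨fun p => K (p.1, e'.symm p.2), ?_⟩, ?_, ?_⟩
  · exact K.continuous.comp (continuous_fst.prodMk (e'.symm.continuous.comp continuous_snd))
  · intro x
    change K (0, e'.symm x) = x
    rw [K.apply_zero, he']
  · intro x
    change K (1, e'.symm x) ∈ bdS
    rw [K.apply_one]
    exact hg _

/-- the four circles with even index fill -/
lemma fills_four (A : Set (Set S))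
    (hA : ∀ i ∈ ({0, 2, 4, 6} : Finset (ZMod 8)), alpha i ∈ A) : Fills bdS A := by
  intro c hc
  by_contra hcon
  push Not at hcon
  obtain ⟨⟨⟨γ, hγ, hr⟩, -⟩, -, h3⟩ := hc
  exact h3 (deform_of_zero_four γ hγ hr fun i hi => hcon _ (hA i hi))

/-! ### the half turn -/

lemma dir_neg (k : ZMod 8) : dir (-k) = (starRingEnd ℂ) (dir k) := by
  have h1 : dir k * dir (-k) = 1 := by rw [← dir_add, add_neg_cancel, dir_zero]
  have h2 := dir_mul_conj k
  exact mul_left_cancel₀ (dir_ne_zero k) (h1.trans h2.symm)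

lemma xx_conj (k : ZMod 8) (w : ℂ) : xx (-k) ((starRingEnd ℂ) w) = xx k w := by
  unfold xx
  rw [dir_neg, ← map_mul, Complex.conj_re]

lemma xx_half (k : ZMod 8) (w : ℂ) : xx (2 - k) ((starRingEnd ℂ) w * dir 2) = xx k w := by
  have h := xx_mul_dir (-k) 2 ((starRingEnd ℂ) w)
  rw [show -k + 2 = 2 - k by ring] at h
  rw [h, xx_conj]

lemma half_mem {v : ℂ × ℝ} (hv : v ∈ SSet) :
    (((starRingEnd ℂ) v.1 * dir 2, -v.2) : ℂ × ℝ) ∈ SSet := by
  refine ⟨?_, fun k => ?_⟩
  · simp only [norm_mul, norm_dir, mul_one, RCLike.norm_conj, neg_sq]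
    exact hv.1
  · have := xx_half (2 - k) v.1
    rw [sub_sub_cancel] at this
    rw [this]
    exact hv.2 _

lemma half_half (v : ℂ × ℝ) :
    (((starRingEnd ℂ) ((starRingEnd ℂ) v.1 * dir 2) * dir 2, - -v.2) : ℂ × ℝ) = v := by
  ext1
  · simp only
    rw [map_mul, Complex.conj_conj, mul_assoc, mul_comm ((starRingEnd ℂ) (dir 2)),
      dir_mul_conj, mul_one]
  · simp

/-- The half turn: the rotation of the sphere by the angle `π` about the axis through the centre
`(dir 1, 0)` of the cap with index `1`. -/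
noncomputable def halfTurn : S ≃ₜ S where
  toFun v := ⟨((starRingEnd ℂ) v.1.1 * dir 2, -v.1.2), half_mem v.2⟩
  invFun v := ⟨((starRingEnd ℂ) v.1.1 * dir 2, -v.1.2), half_mem v.2⟩
  left_inv v := Subtype.ext (half_half v.1)
  right_inv v := Subtype.ext (half_half v.1)
  continuous_toFun := by
    apply Continuous.subtype_mk
    fun_prop
  continuous_invFun := by
    apply Continuous.subtype_mk
    fun_prop

lemma halfTurn_val (v : S) :
    (halfTurn v : ℂ × ℝ) = ((starRingEnd ℂ) v.1.1 * dir 2, -v.1.2) := rfl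

lemma halfTurn_symm : halfTurn.symm = halfTurn := rfl

lemma xx_halfTurn (k : ZMod 8) (v : S) : xx (2 - k) (halfTurn v).1.1 = xx k v.1.1 := by
  rw [halfTurn_val]
  exact xx_half k v.1.1

lemma halfTurn_alpha (i : ZMod 8) : halfTurn '' alpha i = alpha (2 - i) := by
  ext v
  constructor
  · rintro ⟨v, hv, rfl⟩
    change xx (2 - i) (halfTurn v).1.1 = 1 / 2
    rw [xx_halfTurn]
    exact hv
  · intro hv
    refine ⟨halfTurn.symm v, ?_, halfTurn.apply_symm_apply v⟩
    change xx i (halfTurn.symm v).1.1 = 1 / 2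
    rw [← xx_halfTurn i, halfTurn.apply_symm_apply]
    exact hv

/-! ### supports -/

section general

variable {X : Type} [TopologicalSpace X]

lemma image_of_fix {T : X ≃ₜ X} {s : Set X} (h : ∀ x ∈ s, T x = x) : T '' s = s := by
  ext x
  constructor
  · rintro ⟨y, hy, rfl⟩
    rw [h y hy]
    exact hy
  · intro hx
    exact ⟨x, hx, h x hx⟩

lemma image_inv {T : X ≃ₜ X} {s t : Set X} (h : T '' s = t) : (T⁻¹ : X ≃ₜ X) '' t = s := by
  rw [← h, ← Set.image_comp]
  have : ((T⁻¹ : X ≃ₜ X) ∘ T : X → X) = id := by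
    funext x
    exact T.symm_apply_apply x
  rw [this, Set.image_id]

lemma image_comp_mul {T T' : X ≃ₜ X} {s : Set X} : (T * T' : X ≃ₜ X) '' s = T '' (T' '' s) := by
  rw [← Set.image_comp]
  rfl

lemma image_pow' {T : X ≃ₜ X} {s : Set X} (h : T '' s = s) (n : ℕ) :
    (T ^ n : X ≃ₜ X) '' s = s := by
  induction n with
  | zero =>
    rw [pow_zero]
    exact Set.image_id s
  | succ n ih => rw [pow_succ, image_comp_mul, h, ih]

end general

/-- the twist about the opposite circle -/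
noncomputable def T4 : S ≃ₜ S := rot 4 * T0 * (rot 4)⁻¹

lemma band_rot4 {v : S} : v ∈ band 4 ↔ (rot 4).symm v ∈ band 0 := by
  have h : xx 4 v.1.1 = xx 0 ((rot 4).symm v).1.1 := by
    have := xx_rot 0 4 ((rot 4).symm v)
    rw [(rot 4).apply_symm_apply, zero_add] at this
    exact this
  unfold band
  simp only [mem_ofPred_eq, h]

lemma T4_id {v : S} (h : v ∉ band 4) : T4 v = v := by
  change rot 4 (T0 ((rot 4).symm v)) = v
  rw [band_rot4] at h
  rw [T0_id h, (rot 4).apply_symm_apply]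

lemma T4_band {v : S} (h : v ∈ band 4) : T4 v ∈ band 4 := by
  change rot 4 (T0 ((rot 4).symm v)) ∈ band 4
  rw [band_rot4, (rot 4).symm_apply_apply]
  rw [band_rot4] at h
  exact T0_band h

/-- the bands of the circles `0` and `4` are disjoint -/
lemma bands_disjoint4 {v : S} (h0 : v ∈ band 0) (h4 : v ∈ band 4) : False := by
  obtain ⟨a1, a2⟩ := h0
  obtain ⟨b1, b2⟩ := h4
  rw [show (4 : ZMod 8) = 0 + 4 by decide, xx_add_four] at b1 b2
  linarith

lemma commute_T4 : Commute T0 T4 := by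
  ext v : 1
  change T0 (T4 v) = T4 (T0 v)
  by_cases h0 : v ∈ band 0
  · have h3 : v ∉ band 4 := fun h => bands_disjoint4 h0 h
    have h4 : T0 v ∉ band 4 := fun h => bands_disjoint4 (T0_band h0) h
    rw [T4_id h3, T4_id h4]
  · rw [T0_id h0]
    apply T0_id
    intro h1
    by_cases h3 : v ∈ band 4
    · exact bands_disjoint4 h1 (T4_band h3)
    · rw [T4_id h3] at h1
      exact h0 h1

/-- a circle with index differing by 3 from the index of a band is disjoint from it -/
lemma alpha_band3 {k : ZMod 8} {v : S} (hv : v ∈ alpha (k + 3)) : v ∉ band k := by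
  intro h0
  have hv : xx (k + 3) v.1.1 = 1 / 2 := hv
  obtain ⟨a1, a2⟩ := h0
  have hq := q_pos
  have hq1 := q_lt
  have e1 := xx_sq_add_yy_sq k v.1.1
  have e2 := v.2.1
  rw [xx_add_three] at hv
  have e3 : 63 / 100 ≤ yy k v.1.1 - xx k v.1.1 := by
    by_contra h
    push Not at h
    nlinarith
  have e4 : 1 ≤ yy k v.1.1 := by linarith
  nlinarith [sq_nonneg v.1.2]

lemma alpha_band5 {k : ZMod 8} {v : S} (hv : v ∈ alpha (k + 5)) : v ∉ band k := by
  intro h0
  have hv : xx (k + 5) v.1.1 = 1 / 2 := hv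
  obtain ⟨a1, a2⟩ := h0
  have hq := q_pos
  have hq1 := q_lt
  have e1 := xx_sq_add_yy_sq k v.1.1
  have e2 := v.2.1
  rw [xx_add_five] at hv
  have e3 : 63 / 100 ≤ -yy k v.1.1 - xx k v.1.1 := by
    by_contra h
    push Not at h
    nlinarith
  have e4 : 1 ≤ -yy k v.1.1 := by linarith
  nlinarith [sq_nonneg v.1.2]

lemma alpha_band4 {k : ZMod 8} {v : S} (hv : v ∈ alpha (k + 4)) : v ∉ band k := by
  intro h0
  have hv : xx (k + 4) v.1.1 = 1 / 2 := hv
  obtain ⟨a1, a2⟩ := h0
  rw [xx_add_four] at hv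
  linarith

lemma T0_alpha5 : T0 '' alpha 5 = alpha 5 :=
  image_of_fix fun v hv => T0_id (alpha_band5 (k := 0) (by rw [zero_add]; exact hv))

lemma T4_alpha1 : T4 '' alpha 1 = alpha 1 :=
  image_of_fix fun v hv => T4_id (alpha_band5 (k := 4)
    (by rw [show (4 + 5 : ZMod 8) = 1 by decide]; exact hv))

lemma T4_alpha0 : T4 '' alpha 0 = alpha 0 :=
  image_of_fix fun v hv => T4_id (alpha_band4 (k := 4)
    (by rw [show (4 + 4 : ZMod 8) = 0 by decide]; exact hv))

lemma T0_alpha0 : T0 '' alpha 0 = alpha 0 := by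
  have h1 : ∀ v : S, xx 0 (T0 v).1.1 = xx 0 v.1.1 := fun v => by rw [xx_zero, xx_zero]; rfl
  ext v
  constructor
  · rintro ⟨v, hv, rfl⟩
    change xx 0 (T0 v).1.1 = 1 / 2
    rw [h1]
    exact hv
  · intro hv
    refine ⟨T0.symm v, ?_, T0.apply_symm_apply v⟩
    change xx 0 (T0.symm v).1.1 = 1 / 2
    rw [← h1, T0.apply_symm_apply]
    exact hv

lemma T4_alpha4 : T4 '' alpha 4 = alpha 4 := by
  have h : rot 4 '' alpha 0 = alpha 4 := by rw [rot_alpha, zero_add]
  have h' : ((rot 4)⁻¹ : S ≃ₜ S) '' alpha 4 = alpha 0 := image_inv h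
  unfold T4
  rw [image_comp_mul, image_comp_mul, h', T0_alpha0, h]

lemma alpha_disjoint4 : Disjoint (alpha 0) (alpha 4) := by
  rw [Set.disjoint_left]
  intro v h0 h4
  have h0 : xx 0 v.1.1 = 1 / 2 := h0
  have h4 : xx 4 v.1.1 = 1 / 2 := h4
  exact bands_disjoint4 (v := v) (by constructor <;> rw [h0] <;> norm_num)
    (by constructor <;> rw [h4] <;> norm_num)

/-- the first circle is not isotopic to the opposite one -/
lemma not_isotopic4 : ¬ CirclesIsotopic (alpha 0) (alpha 4) := by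
  rintro ⟨h, hh, hmap⟩
  have hom := homotopic_of_mem hh c0
  apply no_logA
  refine hasLog_of_homotopic (ContinuousMap.Homotopic.comp
      (ContinuousMap.Homotopic.refl (E chiA chiA_ne)) hom.symm) ?_
  apply hasLog_of_pos
  intro u a ha
  have h1 : (h (c0 u)) ∈ alpha 4 := by
    rw [← hmap]
    exact ⟨c0 u, xx_c0 u, rfl⟩
  have h2 : xx 4 (h (c0 u)).1.1 = 1 / 2 := h1
  have h3 := side_P (i := 4) (v := h (c0 u)) (by rw [h2]; norm_num) ha
  have h4 := side_A (i := 4) (v := h (c0 u)) h2.le ha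
  unfold chiA
  rw [if_neg]
  · norm_num
  · clear ha
    revert h3 h4 a
    decide

end Pool.Agent.Helper57.MCG
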