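import Pool.Agent.Helper57.MCG.Fill

/-!
# Continuous logarithms
-/

set_option autoImplicit false

open Set Topology

namespace Pool.Agent.Helper57.MCG

/-- nonzero complex numbers -/
abbrev Cs : Type := {z : ℂ // z ≠ 0}

/-- existence of a continuous logarithm -/
def HasLog {Y : Type} [TopologicalSpace Y] (g : C(Y, Cs)) : Prop :=
  ∃ L : C(Y, ℂ), ∀ y, Complex.exp (L y) = g y

lemma HasLog.comp {Y Z : Type} [TopologicalSpace Y] [TopologicalSpace Z] {g : C(Y, Cs)}
    (h : HasLog g) (f : C(Z, Y)) : HasLog (g.comp f) := by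
  obtain ⟨L, hL⟩ := h
  exact ⟨L.comp f, fun z => hL (f z)⟩

lemma hasLog_of_homotopic {Y : Type} [TopologicalSpace Y] {f g : C(Y, Cs)}
    (h : ContinuousMap.Homotopic f g) (hf : HasLog f) : HasLog g := by
  obtain ⟨L, hL⟩ := hf
  obtain ⟨K⟩ := h
  have cov := Complex.isCoveringMap_exp
  let M := cov.liftHomotopy K.toContinuousMap L (fun a => by
    apply Subtype.ext
    change (K (0, a) : ℂ) = Complex.exp (L a)
    rw [K.apply_zero, hL])
  have hM := cov.liftHomotopy_lifts K.toContinuousMap L (fun a => by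
    apply Subtype.ext
    change (K (0, a) : ℂ) = Complex.exp (L a)
    rw [K.apply_zero, hL])
  refine ⟨M.comp ⟨fun y => (1, y), by fun_prop⟩, fun y => ?_⟩
  have h1 := congrArg Subtype.val (congrFun hM (1, y))
  change Complex.exp (M (1, y)) = (K (1, y) : ℂ) at h1
  rw [K.apply_one] at h1
  exact h1

lemma hasLog_of_slit {Y : Type} [TopologicalSpace Y] (g : C(Y, Cs))
    (h : ∀ y, (g y : ℂ) ∈ Complex.slitPlane) : HasLog g := by
  refine ⟨⟨fun y => Complex.log (g y), ?_⟩, fun y => Complex.exp_log (g y).2⟩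
  exact Continuous.clog (continuous_subtype_val.comp g.continuous) h

lemma hasLog_of_neg_slit {Y : Type} [TopologicalSpace Y] (g : C(Y, Cs))
    (h : ∀ y, -(g y : ℂ) ∈ Complex.slitPlane) : HasLog g := by
  refine ⟨⟨fun y => Complex.log (-(g y)) + Real.pi * Complex.I, ?_⟩, fun y => ?_⟩
  · exact (Continuous.clog (continuous_subtype_val.comp g.continuous).neg h).add continuous_const
  · change Complex.exp (Complex.log (-(g y)) + Real.pi * Complex.I) = g y
    rw [Complex.exp_add, Complex.exp_log (neg_ne_zero.mpr (g y).2), Complex.exp_pi_mul_I]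
    ring

lemma hasLog_const {Y : Type} [TopologicalSpace Y] (c : Cs) :
    HasLog (ContinuousMap.const Y c) :=
  ⟨ContinuousMap.const Y (Complex.log c), fun _ => Complex.exp_log c.2⟩

/-- the inclusion of the circle -/
def incl : C(Circle, Cs) := ⟨fun u => ⟨(u : ℂ), u.coe_ne_zero⟩, by fun_prop⟩

lemma no_log_incl : ¬ HasLog incl := by
  rintro ⟨L, hL⟩
  have cov := Complex.isCoveringMap_exp
  have hL1 : Complex.exp (L 1) = 1 := by
    rw [hL]; rfl
  have key := cov.eq_of_comp_eq (A := ℝ) (g₁ := fun t => L (Circle.exp t))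
    (g₂ := fun t => (t : ℂ) * Complex.I + L 1)
    (L.continuous.comp Circle.exp.continuous)
    ((Complex.continuous_ofReal.mul continuous_const).add continuous_const)
    (by
      funext t
      apply Subtype.ext
      change Complex.exp (L (Circle.exp t)) = Complex.exp ((t : ℂ) * Complex.I + L 1)
      rw [hL, Complex.exp_add, hL1, mul_one]
      rfl)
    0 (by
      simp)
  have h1 := congrFun key (2 * Real.pi)
  simp only [Circle.exp_two_pi] at h1
  have h2 : ((2 * Real.pi : ℝ) : ℂ) * Complex.I = 0 := by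
    linear_combination -h1
  rw [mul_eq_zero] at h2
  rcases h2 with h2 | h2
  · have h3 : (2 * Real.pi : ℝ) = 0 := by exact_mod_cast h2
    have := Real.pi_pos
    linarith
  · exact Complex.I_ne_zero h2

/-- the maps detecting the strips -/
noncomputable def Eraw (χ : ZMod 8 → ℝ) (v : ℂ × ℝ) : ℂ :=
  ⟨∑ a, χ a * kap a v, v.2⟩

lemma sum_chi {v : ℂ × ℝ} (χ : ZMod 8 → ℝ) (a : ZMod 8) (ha : 0 < kap a v) :
    ∑ b, χ b * kap b v = χ a * kap a v := by
  apply Finset.sum_eq_single a
  · intro b _ hb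
    have : kap b v = 0 := by
      by_contra h1
      exact hb (kap_unique (lt_of_le_of_ne (kap_nonneg b _) (Ne.symm h1)) ha)
    rw [this, mul_zero]
  · intro h1
    exact absurd (Finset.mem_univ a) h1

/-- the detecting map -/
noncomputable def E (χ : ZMod 8 → ℝ) (hχ : ∀ a, χ a ≠ 0) : C(S, Cs) where
  toFun v := ⟨Eraw χ v.1, by
    intro h
    have h1 : (Eraw χ v.1).re = 0 := by rw [h]; rfl
    have h2 : (Eraw χ v.1).im = 0 := by rw [h]; rfl
    obtain ⟨a, ha⟩ := exists_kap_pos v h2
    change ∑ b, χ b * kap b v.1 = 0 at h1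
    rw [sum_chi χ a ha, mul_eq_zero] at h1
    rcases h1 with h1 | h1
    · exact hχ a h1
    · exact ha.ne' h1⟩
  continuous_toFun := by
    apply Continuous.subtype_mk
    have h1 : Continuous (fun v : S => ∑ a, χ a * kap a v.1) :=
      continuous_finsetSum _ fun a _ =>
        continuous_const.mul ((continuous_kap a).comp continuous_subtype_val)
    have h2 : Continuous (fun v : S => v.1.2) := continuous_snd.comp continuous_subtype_val
    have h3 : (fun v : S => Eraw χ v.1) =
        fun v : S => ((∑ a, χ a * kap a v.1 : ℝ) : ℂ) + ((v.1.2 : ℝ) : ℂ) * Complex.I := by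
      funext v
      apply Complex.ext
      · simp [Eraw]
      · simp [Eraw]
    rw [h3]
    exact (Complex.continuous_ofReal.comp h1).add
      ((Complex.continuous_ofReal.comp h2).mul continuous_const)

lemma E_val (χ : ZMod 8 → ℝ) (hχ : ∀ a, χ a ≠ 0) (v : S) : (E χ hχ v : ℂ) = Eraw χ v.1 := rfl

/-- a map meeting only strips with positive sign has a logarithm after detection -/
lemma hasLog_of_pos {Y : Type} [TopologicalSpace Y] (χ : ZMod 8 → ℝ) (hχ : ∀ a, χ a ≠ 0)
    (δ : C(Y, S)) (h : ∀ y a, 0 < kap a (δ y).1 → 0 < χ a) : HasLog ((E χ hχ).comp δ) := by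
  apply hasLog_of_slit
  intro y
  have h0 : (E χ hχ (δ y) : ℂ) ≠ 0 := (E χ hχ (δ y)).2
  change (E χ hχ (δ y) : ℂ) ∈ Complex.slitPlane
  rw [E_val] at h0 ⊢
  rw [Complex.mem_slitPlane_iff]
  by_cases hz : (δ y).1.2 = 0
  · left
    obtain ⟨a, ha⟩ := exists_kap_pos (δ y) hz
    change 0 < ∑ b, χ b * kap b (δ y).1
    rw [sum_chi χ a ha]
    exact mul_pos (h y a ha) ha
  · right
    exact hz

/-- same with negative signs -/
lemma hasLog_of_neg {Y : Type} [TopologicalSpace Y] (χ : ZMod 8 → ℝ) (hχ : ∀ a, χ a ≠ 0)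
    (δ : C(Y, S)) (h : ∀ y a, 0 < kap a (δ y).1 → χ a < 0) : HasLog ((E χ hχ).comp δ) := by
  apply hasLog_of_neg_slit
  intro y
  change -(E χ hχ (δ y) : ℂ) ∈ Complex.slitPlane
  rw [E_val]
  rw [Complex.mem_slitPlane_iff]
  by_cases hz : (δ y).1.2 = 0
  · left
    obtain ⟨a, ha⟩ := exists_kap_pos (δ y) hz
    change 0 < -∑ b, χ b * kap b (δ y).1
    rw [sum_chi χ a ha]
    have := h y a ha
    nlinarith
  · right
    change -(δ y).1.2 ≠ 0
    exact neg_ne_zero.mpr hz

end Pool.Agent.Helper57.MCG
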