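import Pool.Agent.Helper57.MCG.Logs

/-!
# The eight circles are nontrivial
-/

set_option autoImplicit false

open Set Topology

namespace Pool.Agent.Helper57.MCG

/-- the band around the first circle does not meet the caps -/
lemma band_xx {v : ℂ × ℝ} (h : ‖v.1‖ ^ 2 + v.2 ^ 2 = 1) (h1 : 9 / 20 ≤ xx 0 v.1)
    (h2 : xx 0 v.1 ≤ 11 / 20) (k : ZMod 8) : xx k v.1 < 60 / 61 := by
  have hq := q_pos
  have hq1 := q_lt
  have hq2 := lt_q
  have hs := xx_sq_add_yy_sq 0 v.1
  set x := xx 0 v.1 with hx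
  set y := yy 0 v.1 with hy
  have hsum : x ^ 2 + y ^ 2 ≤ 1 := by nlinarith [sq_nonneg v.2]
  have hyabs : y < 9 / 10 := by nlinarith
  have hyabs' : -(9 / 10) < y := by nlinarith
  have hplus : x + y < 139 / 100 := by
    by_contra hcon
    push Not at hcon
    have h3 : 0 < 139 / 100 - x := by linarith
    have h4 : (139 / 100 - x) ^ 2 ≤ y ^ 2 := pow_le_pow_left₀ h3.le (by linarith) 2
    nlinarith
  have hminus : x - y < 139 / 100 := by
    by_contra hcon
    push Not at hcon
    have h3 : 0 < 139 / 100 - x := by linarith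
    have h4 : (139 / 100 - x) ^ 2 ≤ (-y) ^ 2 := pow_le_pow_left₀ h3.le (by linarith) 2
    nlinarith
  rcases shift_cases 0 k with h' | h' | h' | h' | h' | h' | h' | h' <;> subst h'
  · linarith
  · rw [xx_add_one, ← hx, ← hy]; nlinarith
  · rw [xx_add_two, ← hy]; linarith
  · rw [xx_add_three, ← hx, ← hy]; nlinarith
  · rw [xx_add_four, ← hx]; linarith
  · rw [xx_add_five, ← hx, ← hy]; nlinarith
  · rw [xx_add_six, ← hy]; linarith
  · rw [xx_add_seven, ← hx, ← hy]; nlinarith

lemma band_mem {v : ℂ × ℝ} (h : ‖v.1‖ ^ 2 + v.2 ^ 2 = 1) (h1 : 9 / 20 ≤ xx 0 v.1)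
    (h2 : xx 0 v.1 ≤ 11 / 20) : v ∈ SSet :=
  ⟨h, fun k => (band_xx h h1 h2 k).le⟩

/-- the point of the sphere at level `x` and angle `u` around the first axis -/
noncomputable def lev (x : ℝ) (u : ℂ) : ℂ × ℝ :=
  (⟨x, Real.sqrt (1 - x ^ 2) * u.re⟩, Real.sqrt (1 - x ^ 2) * u.im)

lemma lev_sphere {x : ℝ} (hx : x ^ 2 ≤ 1) {u : ℂ} (hu : ‖u‖ = 1) :
    ‖(lev x u).1‖ ^ 2 + (lev x u).2 ^ 2 = 1 := by
  rw [← Complex.normSq_eq_norm_sq, Complex.normSq_apply]
  have h1 : Real.sqrt (1 - x ^ 2) ^ 2 = 1 - x ^ 2 := Real.sq_sqrt (by linarith)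
  have h2 : u.re ^ 2 + u.im ^ 2 = 1 := by
    have := Complex.normSq_apply u
    rw [Complex.normSq_eq_norm_sq, hu] at this
    nlinarith
  simp only [lev]
  linear_combination (u.re ^ 2 + u.im ^ 2) * h1 + (1 - x ^ 2) * h2

lemma xx_lev (x : ℝ) (u : ℂ) : xx 0 (lev x u).1 = x := by rw [xx_zero]; rfl

lemma yy_lev (x : ℝ) (u : ℂ) : yy 0 (lev x u).1 = Real.sqrt (1 - x ^ 2) * u.re := by
  rw [yy_zero]; rfl

lemma lev_mem {x : ℝ} (h1 : 9 / 20 ≤ x) (h2 : x ≤ 11 / 20) {u : ℂ} (hu : ‖u‖ = 1) :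
    lev x u ∈ SSet :=
  band_mem (lev_sphere (by nlinarith) hu) (by rw [xx_lev]; exact h1) (by rw [xx_lev]; exact h2)

lemma continuous_lev : Continuous (fun p : ℝ × ℂ => lev p.1 p.2) := by
  unfold lev
  have h1 : Continuous (fun p : ℝ × ℂ => Real.sqrt (1 - p.1 ^ 2)) :=
    (continuous_const.sub (continuous_fst.pow 2)).sqrt
  have h2 : Continuous (fun p : ℝ × ℂ => p.2.re) := Complex.continuous_re.comp continuous_snd
  have h3 : Continuous (fun p : ℝ × ℂ => p.2.im) := Complex.continuous_im.comp continuous_snd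
  have h4 : (fun p : ℝ × ℂ => (⟨p.1, Real.sqrt (1 - p.1 ^ 2) * p.2.re⟩ : ℂ)) =
      fun p => ((p.1 : ℝ) : ℂ) + ((Real.sqrt (1 - p.1 ^ 2) * p.2.re : ℝ) : ℂ) * Complex.I := by
    funext p
    apply Complex.ext <;> simp
  refine Continuous.prodMk ?_ (h1.mul h3)
  rw [h4]
  exact (Complex.continuous_ofReal.comp continuous_fst).add
    ((Complex.continuous_ofReal.comp (h1.mul h2)).mul continuous_const)

lemma continuous_coeC : Continuous (fun u : Circle => (u : ℂ)) := by fun_prop

/-- parametrization of the first circle -/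
noncomputable def c0 : C(Circle, S) where
  toFun u := ⟨lev (1 / 2) u, lev_mem (by norm_num) (by norm_num) (Circle.norm_coe u)⟩
  continuous_toFun := by
    apply Continuous.subtype_mk
    exact continuous_lev.comp (continuous_const.prodMk continuous_coeC)

lemma c0_val (u : Circle) : (c0 u : ℂ × ℝ) = lev (1 / 2) u := rfl

lemma sqrt_pos' : 0 < Real.sqrt (1 - (1 / 2 : ℝ) ^ 2) := Real.sqrt_pos.mpr (by norm_num)

lemma sqrt_sq' : Real.sqrt (1 - (1 / 2 : ℝ) ^ 2) ^ 2 = 3 / 4 := by
  rw [Real.sq_sqrt (by norm_num)]; norm_num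

lemma c0_injective : Function.Injective c0 := by
  intro u u' h
  have h1 : lev (1 / 2) (u : ℂ) = lev (1 / 2) (u' : ℂ) := congrArg Subtype.val h
  have hp := sqrt_pos'
  have h2 : (lev (1 / 2) (u : ℂ)).1.im = (lev (1 / 2) (u' : ℂ)).1.im := by rw [h1]
  have h3 : (lev (1 / 2) (u : ℂ)).2 = (lev (1 / 2) (u' : ℂ)).2 := by rw [h1]
  simp only [lev] at h2 h3
  apply Circle.ext
  apply Complex.ext
  · exact mul_left_cancel₀ hp.ne' h2
  · exact mul_left_cancel₀ hp.ne' h3

lemma range_c0 : range c0 = alpha 0 := by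
  ext v
  constructor
  · rintro ⟨u, rfl⟩
    change xx 0 (lev (1 / 2) (u : ℂ)).1 = 1 / 2
    exact xx_lev _ _
  · intro hv
    have hv : xx 0 v.1.1 = 1 / 2 := hv
    have hp := sqrt_pos'
    have hs := sqrt_sq'
    have h1 := xx_sq_add_yy_sq 0 v.1.1
    have h2 := v.2.1
    rw [hv] at h1
    set r := Real.sqrt (1 - (1 / 2 : ℝ) ^ 2) with hr
    have hnorm : ‖(⟨yy 0 v.1.1 / r, v.1.2 / r⟩ : ℂ)‖ = 1 := by
      have : ‖(⟨yy 0 v.1.1 / r, v.1.2 / r⟩ : ℂ)‖ ^ 2 = 1 := by
        rw [← Complex.normSq_eq_norm_sq, Complex.normSq_apply]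
        simp only
        field_simp
        nlinarith
      have h3 := norm_nonneg (⟨yy 0 v.1.1 / r, v.1.2 / r⟩ : ℂ)
      nlinarith
    obtain ⟨u, hu⟩ : ∃ u : Circle, (u : ℂ) = ⟨yy 0 v.1.1 / r, v.1.2 / r⟩ :=
      ⟨⟨⟨yy 0 v.1.1 / r, v.1.2 / r⟩, mem_sphere_zero_iff_norm.mpr hnorm⟩, rfl⟩
    refine ⟨u, ?_⟩
    apply Subtype.ext
    rw [c0_val, hu]
    ext1
    · apply Complex.ext
      · change (1 / 2 : ℝ) = _
        rw [← hv, xx_zero]
      · change r * (yy 0 v.1.1 / r) = _
        rw [mul_div_cancel₀ _ hp.ne', yy_zero]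
    · change r * (v.1.2 / r) = _
      rw [mul_div_cancel₀ _ hp.ne']

lemma xx_c0 (u : Circle) : xx 0 (c0 u).1.1 = 1 / 2 := xx_lev _ _

lemma kap_c0 {u : Circle} {a : ZMod 8} (h : 0 < kap a (c0 u).1) :
    (a = 1 ∧ 0 < (u : ℂ).re) ∨ (a = 6 ∧ (u : ℂ).re < 0) := by
  have h1 := side_P (i := 0) (v := c0 u) (by rw [xx_c0]; norm_num) h
  have h2 := side_A (i := 0) (v := c0 u) (xx_c0 u).le h
  have h3 : a = 1 ∨ a = 6 := by
    clear h
    revert h1 h2 a
    decide
  have hq := q_pos
  have hp := sqrt_pos'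
  have hy : yy 0 (c0 u).1.1 = Real.sqrt (1 - (1 / 2) ^ 2) * (u : ℂ).re := yy_lev _ _
  rw [kap_pos_iff] at h
  have hz := abs_nonneg (c0 u).1.2
  rcases h3 with h3 | h3
  · left
    refine ⟨h3, ?_⟩
    subst h3
    have h4 := h.1
    rw [show (1 : ZMod 8) = 0 + 1 by ring, yy_add_one, xx_c0, hy] at h4
    by_contra h5
    push Not at h5
    have h6 := mul_nonpos_of_nonneg_of_nonpos hp.le h5
    nlinarith
  · right
    refine ⟨h3, ?_⟩
    subst h3
    have h4 := h.2
    rw [show (6 + 1 : ZMod 8) = 0 + 7 by decide, yy_add_seven, xx_c0, hy] at h4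
    by_contra h5
    push Not at h5
    have h6 := mul_nonneg hp.le h5
    nlinarith

/-- detection of the first circle -/
lemma no_log_c0 (χ : ZMod 8 → ℝ) (hχ : ∀ a, χ a ≠ 0) (h1 : 0 < χ 1) (h6 : χ 6 < 0) :
    ¬ HasLog ((E χ hχ).comp c0) := by
  intro hlog
  apply no_log_incl
  refine hasLog_of_homotopic ?_ hlog
  have hp := sqrt_pos'
  set r := Real.sqrt (1 - (1 / 2 : ℝ) ^ 2) with hr
  -- real part of the detecting map
  have him : ∀ u : Circle, ((E χ hχ (c0 u) : Cs) : ℂ).im = r * (u : ℂ).im := fun u => rfl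
  have hne : ∀ (u : Circle) (s : ℝ), s ∈ Icc (0 : ℝ) 1 →
      (1 - s) • ((E χ hχ (c0 u) : Cs) : ℂ) + s • (u : ℂ) ≠ 0 := by
    intro u s hs h
    have hs0 := hs.1
    have hs1 := hs.2
    have e1 := congrArg Complex.im h
    have e2 := congrArg Complex.re h
    simp only [Complex.add_im, Complex.smul_im, smul_eq_mul, Complex.zero_im, him] at e1
    simp only [Complex.add_re, Complex.smul_re, smul_eq_mul, Complex.zero_re] at e2
    have e3 : ((1 - s) * r + s) * (u : ℂ).im = 0 := by linear_combination e1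
    have e4 : 0 < (1 - s) * r + s := by
      rcases hs0.eq_or_lt with h0 | h0
      · rw [← h0]; linarith
      · have : 0 ≤ (1 - s) * r := mul_nonneg (by linarith) hp.le
        linarith
    have e5 : (u : ℂ).im = 0 := by
      rcases mul_eq_zero.mp e3 with h5 | h5
      · exact absurd h5 e4.ne'
      · exact h5
    have hz : (c0 u).1.2 = 0 := by
      change r * (u : ℂ).im = 0
      rw [e5, mul_zero]
    obtain ⟨a, ha⟩ := exists_kap_pos (c0 u) hz
    have hre : ((E χ hχ (c0 u) : Cs) : ℂ).re = χ a * kap a (c0 u).1 := by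
      change ∑ b, χ b * kap b (c0 u).1 = _
      exact sum_chi χ a ha
    rw [hre] at e2
    rcases kap_c0 ha with ⟨rfl, h7⟩ | ⟨rfl, h7⟩
    · have h8 : 0 < χ 1 * kap 1 (c0 u).1 := mul_pos h1 ha
      rcases hs0.eq_or_lt with h0 | h0
      · rw [← h0] at e2; linarith
      · have : 0 ≤ (1 - s) * (χ 1 * kap 1 (c0 u).1) := mul_nonneg (by linarith) h8.le
        nlinarith
    · have h8 : χ 6 * kap 6 (c0 u).1 < 0 := mul_neg_of_neg_of_pos h6 ha
      rcases hs0.eq_or_lt with h0 | h0
      · rw [← h0] at e2; linarith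
      · have : (1 - s) * (χ 6 * kap 6 (c0 u).1) ≤ 0 :=
          mul_nonpos_of_nonneg_of_nonpos (by linarith) h8.le
        nlinarith
  refine ⟨⟨⟨fun p => ⟨(1 - (p.1 : ℝ)) • ((E χ hχ (c0 p.2) : Cs) : ℂ) + (p.1 : ℝ) • (p.2 : ℂ),
    hne p.2 _ p.1.2⟩, ?_⟩, ?_, ?_⟩⟩
  · apply Continuous.subtype_mk
    apply Continuous.add
    · exact (continuous_const.sub (continuous_subtype_val.comp continuous_fst)).smul
        (continuous_subtype_val.comp ((E χ hχ).continuous.comp
          (c0.continuous.comp continuous_snd)))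
    · exact (continuous_subtype_val.comp continuous_fst).smul
        (continuous_coeC.comp continuous_snd)
  · intro u
    apply Subtype.ext
    change (1 - ((0 : unitInterval) : ℝ)) • ((E χ hχ (c0 u) : Cs) : ℂ) +
      ((0 : unitInterval) : ℝ) • (u : ℂ) = _
    simp
  · intro u
    apply Subtype.ext
    change (1 - ((1 : unitInterval) : ℝ)) • ((E χ hχ (c0 u) : Cs) : ℂ) +
      ((1 : unitInterval) : ℝ) • (u : ℂ) = _
    simp
    rfl

/-- first sign pattern -/
noncomputable def chiA (a : ZMod 8) : ℝ := if a = 6 then -1 else 1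
/-- second sign pattern -/
noncomputable def chiB (a : ZMod 8) : ℝ := if a = 1 then 1 else -1

lemma chiA_ne (a : ZMod 8) : chiA a ≠ 0 := by unfold chiA; split_ifs <;> norm_num
lemma chiB_ne (a : ZMod 8) : chiB a ≠ 0 := by unfold chiB; split_ifs <;> norm_num

lemma no_logA : ¬ HasLog ((E chiA chiA_ne).comp c0) :=
  no_log_c0 chiA chiA_ne (by unfold chiA; rw [if_neg (by decide)]; norm_num)
    (by unfold chiA; rw [if_pos rfl]; norm_num)

lemma no_logB : ¬ HasLog ((E chiB chiB_ne).comp c0) :=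
  no_log_c0 chiB chiB_ne (by unfold chiB; rw [if_pos rfl]; norm_num)
    (by unfold chiB; rw [if_neg (by decide)]; norm_num)

/-- on the boundary of a cap -/
lemma bd_coord {v : S} {k : ZMod 8} (h : xx k v.1.1 = 60 / 61) : |yy k v.1.1| ≤ 11 / 61 := by
  have h1 := xx_sq_add_yy_sq k v.1.1
  have h2 := v.2.1
  rw [h] at h1
  rw [abs_le]
  constructor <;> nlinarith [sq_nonneg v.1.2]

lemma bd_unique {v : S} {k j : ZMod 8} (h : xx k v.1.1 = 60 / 61) (h' : xx j v.1.1 = 60 / 61) :
    j = k := by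
  have hq := q_pos
  have hq1 := q_lt
  have hy := abs_le.mp (bd_coord h)
  obtain ⟨hy1, hy2⟩ := hy
  rcases shift_cases k j with e | e | e | e | e | e | e | e
  · exact e
  · exfalso; subst e; rw [xx_add_one, h] at h'; nlinarith
  · exfalso; subst e; rw [xx_add_two] at h'; linarith
  · exfalso; subst e; rw [xx_add_three, h] at h'; nlinarith
  · exfalso; subst e; rw [xx_add_four, h] at h'; linarith
  · exfalso; subst e; rw [xx_add_five, h] at h'; nlinarith
  · exfalso; subst e; rw [xx_add_six] at h'; linarith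
  · exfalso; subst e; rw [xx_add_seven, h] at h'; nlinarith

lemma bd_kap {v : S} {k a : ZMod 8} (h : xx k v.1.1 = 60 / 61) (ha : 0 < kap a v.1) :
    a = k ∨ a = k + 7 := by
  have hq := q_pos
  have hq1 := q_lt
  have hy := abs_le.mp (bd_coord h)
  obtain ⟨hy1, hy2⟩ := hy
  obtain ⟨h1, h2⟩ := kap_pos_sec ha
  rcases shift_cases k a with e | e | e | e | e | e | e | e
  · exact Or.inl e
  · exfalso; subst e; rw [yy_add_one, h] at h1; nlinarith
  · exfalso; subst e; rw [yy_add_two, h] at h1; linarith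
  · exfalso; subst e; rw [yy_add_three, h] at h1; nlinarith
  · exfalso; subst e; rw [yy_add_four] at h1 h2; rw [xx_add_four, h] at h2; linarith
  · exfalso; subst e; rw [yy_add_five, xx_add_five, h] at h2; nlinarith
  · exfalso; subst e; rw [yy_add_six, xx_add_six, h] at h2; linarith
  · exact Or.inr e

/-- a loop in the boundary lies in one boundary component -/
lemma bd_component {δ : C(Circle, S)} (h : ∀ u, δ u ∈ bdS) :
    ∃ k : ZMod 8, ∀ u, xx k (δ u).1.1 = 60 / 61 := by
  obtain ⟨k, hk⟩ := h 1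
  refine ⟨k, ?_⟩
  have hclosed : ∀ j : ZMod 8, IsClosed {u : Circle | xx j (δ u).1.1 = 60 / 61} := fun j =>
    isClosed_eq ((continuous_xx j).comp (continuous_fst.comp
      (continuous_subtype_val.comp δ.continuous))) continuous_const
  have hopen : IsOpen {u : Circle | xx k (δ u).1.1 = 60 / 61} := by
    have h1 : {u : Circle | xx k (δ u).1.1 = 60 / 61} =
        (⋃ j ∈ ({k}ᶜ : Set (ZMod 8)), {u : Circle | xx j (δ u).1.1 = 60 / 61})ᶜ := by
      ext u
      simp only [mem_ofPred_eq, mem_compl_iff, mem_iUnion, mem_singleton_iff, not_exists]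
      constructor
      · intro h2 j hj h3
        exact hj (bd_unique h2 h3)
      · intro h2
        obtain ⟨j, hj⟩ := h u
        by_cases hjk : j = k
        · rw [← hjk]; exact hj
        · exact absurd hj (h2 j hjk)
    rw [h1]
    exact (Set.Finite.isClosed_biUnion (Set.toFinite _) fun j _ => hclosed j).isOpen_compl
  have h2 := IsClopen.eq_univ ⟨hclosed k, hopen⟩ ⟨1, hk⟩
  intro u
  have : u ∈ {u : Circle | xx k (δ u).1.1 = 60 / 61} := by rw [h2]; trivial
  exact this

/-- the first circle cannot be deformed into the boundary -/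
lemma not_deforms : ¬ DeformsInto (alpha 0) bdS := by
  rintro ⟨H, hH0, hH1⟩
  let c0' : C(Circle, alpha 0) := ⟨fun u => ⟨c0 u, xx_c0 u⟩, c0.continuous.subtype_mk _⟩
  let δ : C(Circle, S) := ⟨fun u => H (1, c0' u),
    H.continuous.comp (continuous_const.prodMk c0'.continuous)⟩
  have hom : ContinuousMap.Homotopic c0 δ := by
    refine ⟨⟨⟨fun p => H (p.1, c0' p.2), ?_⟩, ?_, ?_⟩⟩
    · exact H.continuous.comp (continuous_fst.prodMk (c0'.continuous.comp continuous_snd))
    · intro u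
      exact hH0 _
    · intro u
      rfl
  obtain ⟨k, hk⟩ := bd_component (δ := δ) fun u => hH1 _
  by_cases hk6 : k = 6 ∨ k = 7
  · apply no_logB
    refine hasLog_of_homotopic (ContinuousMap.Homotopic.comp
      (ContinuousMap.Homotopic.refl (E chiB chiB_ne)) hom.symm) ?_
    apply hasLog_of_neg
    intro u a ha
    have := bd_kap (hk u) ha
    unfold chiB
    rw [if_neg]
    · norm_num
    · rcases hk6 with rfl | rfl <;> rcases this with rfl | rfl <;> decide
  · apply no_logA
    refine hasLog_of_homotopic (ContinuousMap.Homotopic.comp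
      (ContinuousMap.Homotopic.refl (E chiA chiA_ne)) hom.symm) ?_
    apply hasLog_of_pos
    intro u a ha
    have := bd_kap (hk u) ha
    unfold chiA
    rw [if_neg]
    · norm_num
    · intro h6
      apply hk6
      subst h6
      clear ha hk hom δ
      revert k
      decide

/-- the first circle does not bound a disk -/
lemma not_bounds : ¬ BoundsDisk (alpha 0) := by
  rintro ⟨d, hd, hr⟩
  -- the composition with the detecting map has a logarithm
  have hlog : HasLog ((E chiA chiA_ne).comp d) := by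
    have h0 : (0 : ℂ) ∈ Metric.closedBall (0 : ℂ) 1 := Metric.mem_closedBall_self zero_le_one
    refine hasLog_of_homotopic ?_ (hasLog_const (E chiA chiA_ne (d ⟨0, h0⟩)))
    have hsc : ∀ (t : unitInterval) (z : Metric.closedBall (0 : ℂ) 1),
        (t : ℝ) • (z : ℂ) ∈ Metric.closedBall (0 : ℂ) 1 := by
      intro t z
      have hz := z.2
      rw [mem_closedBall_zero_iff] at hz ⊢
      rw [norm_smul, Real.norm_eq_abs, abs_of_nonneg t.2.1]
      have := t.2.2
      have := norm_nonneg (z : ℂ)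
      have := t.2.1
      nlinarith
    refine ⟨⟨⟨fun p => E chiA chiA_ne (d ⟨(p.1 : ℝ) • (p.2 : ℂ), hsc p.1 p.2⟩), ?_⟩, ?_, ?_⟩⟩
    · apply (E chiA chiA_ne).continuous.comp
      apply d.continuous.comp
      apply Continuous.subtype_mk
      exact (continuous_subtype_val.comp continuous_fst).smul
        (continuous_subtype_val.comp continuous_snd)
    · intro z
      exact congrArg (fun y => E chiA chiA_ne (d y)) (Subtype.ext (by simp))
    · intro z
      exact congrArg (fun y => E chiA chiA_ne (d y)) (Subtype.ext (by simp))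
  -- factor the parametrization through the disk
  have hemb : IsClosedEmbedding d := d.continuous.isClosedEmbedding hd
  let e : Metric.closedBall (0 : ℂ) 1 ≃ₜ range d := hemb.isEmbedding.toHomeomorph
  have hmem : ∀ u, c0 u ∈ range d := by
    intro u
    have : c0 u ∈ alpha 0 := xx_c0 u
    rw [← hr] at this
    obtain ⟨z, _, hz⟩ := this
    exact ⟨z, hz⟩
  let g : C(Circle, Metric.closedBall (0 : ℂ) 1) :=
    ⟨fun u => e.symm ⟨c0 u, hmem u⟩, e.symm.continuous.comp (c0.continuous.subtype_mk _)⟩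
  have hg : d.comp g = c0 := by
    ext u : 1
    have h1 : e (g u) = ⟨c0 u, hmem u⟩ := e.apply_symm_apply _
    exact congrArg Subtype.val h1
  apply no_logA
  have := hlog.comp g
  rwa [ContinuousMap.comp_assoc, hg] at this

/-- the first circle is nontrivial -/
lemma nontrivial_alpha_zero : IsNontrivialCircle bdS (alpha 0) := by
  refine ⟨⟨⟨c0, c0_injective, range_c0⟩, ?_⟩, not_bounds, not_deforms⟩
  rw [Set.disjoint_left]
  rintro v hv ⟨k, hk⟩
  have hv : xx 0 v.1.1 = 1 / 2 := hv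
  have := band_xx v.2.1 (by rw [hv]; norm_num) (by rw [hv]; norm_num) k
  linarith

/-- the first circle is not isotopic to its image under the rotation by three steps -/
lemma not_isotopic : ¬ CirclesIsotopic (alpha 0) (alpha 3) := by
  rintro ⟨h, hh, hmap⟩
  have hom := homotopic_of_mem hh c0
  apply no_logA
  refine hasLog_of_homotopic (ContinuousMap.Homotopic.comp
      (ContinuousMap.Homotopic.refl (E chiA chiA_ne)) hom.symm) ?_
  apply hasLog_of_pos
  intro u a ha
  have h1 : (h (c0 u)) ∈ alpha 3 := by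
    rw [← hmap]
    exact ⟨c0 u, xx_c0 u, rfl⟩
  have h2 : xx 3 (h (c0 u)).1.1 = 1 / 2 := h1
  have h3 := side_P (i := 3) (v := h (c0 u)) (by rw [h2]; norm_num) ha
  have h4 := side_A (i := 3) (v := h (c0 u)) h2.le ha
  unfold chiA
  rw [if_neg]
  · norm_num
  · clear ha
    revert h3 h4 a
    decide

end Pool.Agent.Helper57.MCG
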