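import Pool.Agent.Helper57.MCG.RId

/-!
# Pushing a map with values in two adjacent meridians into the boundary
-/

set_option autoImplicit false

open Set Topology

namespace Pool.Agent.Helper57.MCG

lemma xx_nrm_of_eq {b : ZMod 8} {v : ℂ × ℝ} (h0 : v ≠ 0)
    (h : 11 * xx b v.1 = 60 * Real.sqrt (yy b v.1 ^ 2 + v.2 ^ 2)) :
    xx b (nrm v).1 = 60 / 61 := by
  have hp := en_pos h0
  have h1 := xx_sq_add_yy_sq b v.1
  have h2 := en_sq v
  have h3 : Real.sqrt (yy b v.1 ^ 2 + v.2 ^ 2) ^ 2 = yy b v.1 ^ 2 + v.2 ^ 2 :=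
    Real.sq_sqrt (by positivity)
  have h4 := Real.sqrt_nonneg (yy b v.1 ^ 2 + v.2 ^ 2)
  set ρ := Real.sqrt (yy b v.1 ^ 2 + v.2 ^ 2) with hρ
  have h5 : en v = 61 / 11 * ρ := by
    have h6 : en v ^ 2 = (61 / 11 * ρ) ^ 2 := by
      have : xx b v.1 = 60 / 11 * ρ := by linarith
      rw [h2, ← h1, this]
      nlinarith
    exact (pow_left_inj₀ hp.le (by positivity) two_ne_zero).mp h6
  have h7 : xx b v.1 = 60 / 11 * ρ := by linarith
  have hρ0 : ρ ≠ 0 := by
    intro h8
    rw [h8, mul_zero] at h5
    exact hp.ne' h5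
  rw [nrm, Prod.smul_fst, xx_smul, h5, h7]
  field_simp

lemma planar_comb (b k : ZMod 8) (hk : k ≠ b) (c : ZMod 8) (hc : c = b ∨ c + 1 = b) {l e : ℝ}
    (hl : 0 ≤ l) (he : 0 ≤ e) :
    11 * xx k (l • mu c + e • dir b) ≤ 60 * |yy k (l • mu c + e • dir b)| := by
  have hq := q_pos
  have hq1 := q_lt
  have hq2 := lt_q
  have hqq := q_sq
  rcases hc with hc | hc
  · subst hc
    have hX : xx c (l • mu c + e • dir c) = l * (1 + q) + e := by
      rw [xx_add', xx_smul, xx_smul, xx_mu, xx_dir, mul_one]
    have hY : yy c (l • mu c + e • dir c) = l * q := by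
      rw [yy_add', yy_smul, yy_smul, yy_mu, yy_dir, mul_zero, add_zero]
    by_cases h : k = c + 1
    · subst h
      rw [xx_add_one, yy_add_one, hX, hY]
      rw [show q * (l * q - (l * (1 + q) + e)) = -(q * (l + e)) by ring, abs_neg,
        abs_of_nonneg (by positivity)]
      nlinarith [mul_nonneg hl hq.le, mul_nonneg he hq.le]
    · apply sector_far (a := c) _ _ hk h
      · rw [hY]; positivity
      · rw [hX, hY]; nlinarith
  · subst hc
    have hX : xx c (l • mu c + e • dir (c + 1)) = l * (1 + q) + e * q := by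
      rw [xx_add', xx_smul, xx_smul, xx_mu, xx_dir_succ]
    have hY : yy c (l • mu c + e • dir (c + 1)) = l * q + e * q := by
      rw [yy_add', yy_smul, yy_smul, yy_mu, yy_dir_succ]
    by_cases h : k = c
    · subst h
      rw [hX, hY, abs_of_nonneg (by positivity)]
      nlinarith [mul_nonneg hl hq.le, mul_nonneg he hq.le]
    · apply sector_far (a := c) _ _ h hk
      · rw [hY]; positivity
      · rw [hX, hY]; nlinarith

/-- the amount of pushing -/
noncomputable def eta (b : ZMod 8) (u : ℂ × ℝ) : ℝ :=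
  60 / 11 * Real.sqrt (yy b u.1 ^ 2 + u.2 ^ 2) - xx b u.1

lemma continuous_eta (b : ZMod 8) : Continuous (eta b) := by
  unfold eta
  exact (continuous_const.mul (((((continuous_yy b).comp continuous_fst).pow 2).add
    (continuous_snd.pow 2)).sqrt)).sub ((continuous_xx b).comp continuous_fst)

/-- pushed vector -/
noncomputable def P (b : ZMod 8) (u : ℂ × ℝ) : ℂ × ℝ := (u.1 + eta b u • dir b, u.2)

lemma continuous_P (b : ZMod 8) : Continuous (P b) :=
  (continuous_fst.add ((continuous_eta b).smul continuous_const)).prodMk continuous_snd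

lemma push (b : ZMod 8) (φ : ZMod 8 → ZMod 8) (hφ : ∀ c, φ c = b ∨ φ c + 1 = b) :
    ∃ g : C(S, S), (∀ v, g v ∈ bdS) ∧ ContinuousMap.Homotopic (R φ) g := by
  have main : ∀ v : S, ∀ s ∈ Icc (0 : ℝ) 1, (1 - s) • G φ v.1 + s • P b (G φ v.1) ≠ 0 ∧
      ∀ k, Out k ((1 - s) • G φ v.1 + s • P b (G φ v.1)) := by
    intro v s hs
    have hs0 := hs.1
    have hs1 := hs.2
    have hq := q_pos
    have hG := comb_props (v := v) (fun a => kap a v.1) (fun a => kap_nonneg a _)
      (fun a h => lt_of_le_of_ne (kap_nonneg a _) (Ne.symm h))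
      (fun h => (exists_kap_pos v h).imp fun a ha => ha.ne') φ
    have hOut : Out b (G φ v.1) := hG.2 b
    have heta : 0 ≤ eta b (G φ v.1) := by
      unfold eta
      unfold Out at hOut
      linarith
    set η := eta b (G φ v.1) with hη
    have h1 : (1 - s) • G φ v.1 + s • P b (G φ v.1) =
        ((G φ v.1).1 + (s * η) • dir b, v.1.2) := by
      unfold P
      ext1
      · simp only [Prod.fst_add, Prod.smul_fst, smul_add, ← hη, smul_smul]
        rw [← add_assoc, ← add_smul]
        simp
      · simp only [Prod.snd_add, Prod.smul_snd, smul_eq_mul, G]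
        ring
    rw [h1]
    have hsη : 0 ≤ s * η := mul_nonneg hs0 heta
    -- the plane vector is a combination of a middle direction and `dir b`
    have hcomb : ∃ (l : ℝ) (c : ZMod 8), 0 ≤ l ∧ (c = b ∨ c + 1 = b) ∧
        (G φ v.1).1 = l • mu c ∧ (v.1.2 = 0 → 0 < l) := by
      rcases coeff_cases (v := v.1) (fun a => kap a v.1) (fun a => kap_nonneg a _)
        (fun a h => lt_of_le_of_ne (kap_nonneg a _) (Ne.symm h)) with ⟨a, ha, -, hsum⟩ | h
      · refine ⟨kap a v.1, φ a, ha.le, hφ a, ?_, fun _ => ha⟩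
        unfold G
        exact hsum (fun a => mu (φ a))
      · refine ⟨0, b, le_rfl, Or.inl rfl, ?_, ?_⟩
        · unfold G
          simp only [h, zero_smul, Finset.sum_const_zero]
        · intro h2
          obtain ⟨a, ha⟩ := exists_kap_pos v h2
          exact absurd (h a) ha.ne'
    obtain ⟨l, c, hl, hc, hGl, hz⟩ := hcomb
    have hxmu : xx b (mu c) = 1 + q := by
      rcases hc with hc | hc
      · subst hc; exact xx_mu c
      · subst hc
        rw [xx_add_one, xx_mu, yy_mu]
        have := q_sq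
        linear_combination 2 * this
    refine ⟨fun h2 => ?_, fun k => ?_⟩
    · have h3 : (G φ v.1).1 + (s * η) • dir b = 0 := congrArg Prod.fst h2
      have h4 : v.1.2 = 0 := congrArg Prod.snd h2
      have h5 : xx b ((G φ v.1).1 + (s * η) • dir b) = l * (1 + q) + s * η := by
        rw [hGl, xx_add', xx_smul, xx_smul, hxmu, xx_dir, mul_one]
      rw [h3] at h5
      have h6 : xx b 0 = 0 := by simp [xx]
      rw [h6] at h5
      have h7 := hz h4
      have : 0 < l * (1 + q) := by positivity
      linarith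
    · by_cases hk : k = b
      · subst hk
        unfold Out
        simp only
        have h5 : xx k ((G φ v.1).1 + (s * η) • dir k) = xx k (G φ v.1).1 + s * η := by
          rw [xx_add', xx_smul, xx_dir, mul_one]
        have h6 : yy k ((G φ v.1).1 + (s * η) • dir k) = yy k (G φ v.1).1 := by
          rw [yy_add', yy_smul, yy_dir, mul_zero, add_zero]
        rw [h5, h6]
        have h7 : s * η ≤ η := by nlinarith
        have h8 : η = 60 / 11 * Real.sqrt (yy k (G φ v.1).1 ^ 2 + v.1.2 ^ 2) -
            xx k (G φ v.1).1 := hη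
        linarith
      · rw [hGl]
        exact out_of_planar (planar_comb b k hk c hc hl hsη)
  have hP0 : ∀ v : S, P b (G φ v.1) ≠ 0 := fun v => by
    have := (main v 1 ⟨zero_le_one, le_rfl⟩).1
    simpa using this
  have hPO : ∀ v : S, ∀ k, Out k (P b (G φ v.1)) := fun v k => by
    have := (main v 1 ⟨zero_le_one, le_rfl⟩).2 k
    simpa using this
  have hcont : Continuous (fun v : S => P b (G φ v.1)) :=
    (continuous_P b).comp ((continuous_G φ).comp continuous_subtype_val)
  refine ⟨mkS (fun v : S => P b (G φ v.1)) hcont hP0 hPO, fun v => ⟨b, ?_⟩, ?_⟩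
  · rw [mkS_val]
    apply xx_nrm_of_eq (hP0 v)
    have h5 : xx b (P b (G φ v.1)).1 = xx b (G φ v.1).1 + eta b (G φ v.1) := by
      unfold P
      simp only
      rw [xx_add', xx_smul, xx_dir, mul_one]
    have h6 : yy b (P b (G φ v.1)).1 = yy b (G φ v.1).1 := by
      unfold P
      simp only
      rw [yy_add', yy_smul, yy_dir, mul_zero, add_zero]
    rw [h5, h6]
    have h7 : (P b (G φ v.1)).2 = (G φ v.1).2 := rfl
    rw [h7]
    unfold eta
    ring
  · exact homotopic_mkS (fun v : S => G φ v.1) (fun v : S => P b (G φ v.1))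
      ((continuous_G φ).comp continuous_subtype_val) hcont (fun v s hs => (main v s hs).1)
      (fun v s hs => (main v s hs).2) _ _ (fun v => R_val _ v) (fun v => rfl)

end Pool.Agent.Helper57.MCG
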