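import Pool.Agent.Helper57.MCG.Strips

/-!
# The collapsing map of the identity is homotopic to the identity
-/

set_option autoImplicit false

open Set Topology

namespace Pool.Agent.Helper57.MCG

lemma ineq_key {x y z l s : ℝ} (hx : 0 ≤ x) (hy : 0 ≤ y) (hl0 : 0 ≤ l) (hly : l ≤ y)
    (hs0 : 0 ≤ s) (hs1 : s ≤ 1) (h : 121 * x ^ 2 ≤ 3600 * (y ^ 2 + z ^ 2)) :
    121 * ((1 - s) * x + s * l * (1 + q)) ^ 2 ≤
      3600 * (((1 - s) * y + s * l * q) ^ 2 + z ^ 2) := by
  have hq := q_pos
  have hq1 := q_lt
  have hq2 := lt_q
  have hqq := q_sq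
  have t1 : 0 ≤ (1 - s) ^ 2 * (3600 * (y ^ 2 + z ^ 2) - 121 * x ^ 2) :=
    mul_nonneg (sq_nonneg _) (by linarith)
  have t2 : 0 ≤ s ^ 2 * (3600 * (l ^ 2 * q ^ 2 + z ^ 2) - 121 * (l ^ 2 * (1 + q) ^ 2)) := by
    apply mul_nonneg (sq_nonneg _)
    have h1 : 0 ≤ l ^ 2 * (3600 * q ^ 2 - 121 * (1 + q) ^ 2) :=
      mul_nonneg (sq_nonneg _) (by nlinarith)
    nlinarith [sq_nonneg z]
  have t3 : 0 ≤ s * (1 - s) * (3600 * (y * l * q + z ^ 2) - 121 * (x * l * (1 + q))) := by
    apply mul_nonneg (mul_nonneg hs0 (by linarith))
    by_cases hc : 121 * x * (1 + q) ≤ 3600 * y * q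
    · have h1 : 0 ≤ l * (3600 * y * q - 121 * x * (1 + q)) := mul_nonneg hl0 (by linarith)
      nlinarith [sq_nonneg z]
    · push Not at hc
      -- here `y` is small with respect to `x`
      have hyx : y ≤ x / 12 := by
        by_contra h2
        push Not at h2
        nlinarith
      have h3 : l * (121 * x * (1 + q) - 3600 * y * q) ≤ y * (121 * x * (1 + q) - 3600 * y * q) :=
        mul_le_mul_of_nonneg_right hly (by linarith)
      have h4 : y * (121 * x * (1 + q) - 3600 * y * q) ≤ y * (121 * x * 1.7072) := by
        apply mul_le_mul_of_nonneg_left _ hy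
        nlinarith
      have h5 : y * (121 * x * 1.7072) ≤ (x / 12) * (121 * x * 1.7072) := by
        apply mul_le_mul_of_nonneg_right hyx
        positivity
      have h6 : 3600 * y ^ 2 ≤ 3600 * (x / 12) ^ 2 := by
        have : y ^ 2 ≤ (x / 12) ^ 2 := pow_le_pow_left₀ hy hyx 2
        linarith
      nlinarith
  nlinarith

/-- vectors in a sector avoid the caps not adjacent to the sector -/
lemma sector_far {a k : ZMod 8} {w : ℂ} (h0 : 0 ≤ yy a w) (h1 : yy a w ≤ xx a w)
    (hk : k ≠ a) (hk' : k ≠ a + 1) : 11 * xx k w ≤ 60 * |yy k w| := by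
  have hq := q_pos
  rcases shift_cases a k with h | h | h | h | h | h | h | h
  · exact absurd h hk
  · exact absurd h hk'
  · subst h
    rw [xx_add_two, yy_add_two, abs_neg, abs_of_nonneg (by linarith)]
    linarith
  · subst h
    rw [xx_add_three]
    have := abs_nonneg (yy (a + 3) w)
    nlinarith
  · subst h
    rw [xx_add_four]
    have := abs_nonneg (yy (a + 4) w)
    nlinarith
  · subst h
    rw [xx_add_five]
    have := abs_nonneg (yy (a + 5) w)
    nlinarith
  · subst h
    rw [xx_add_six]
    have := abs_nonneg (yy (a + 6) w)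
    nlinarith
  · subst h
    rw [xx_add_seven, yy_add_seven, abs_of_nonneg (by nlinarith)]
    nlinarith

lemma R_id : ContinuousMap.Homotopic (ContinuousMap.id S) (R id) := by
  have main : ∀ v : S, ∀ s ∈ Icc (0 : ℝ) 1, (1 - s) • v.1 + s • G id v.1 ≠ 0 ∧
      ∀ k, Out k ((1 - s) • v.1 + s • G id v.1) := by
    intro v s hs
    have hs0 := hs.1
    have hs1 := hs.2
    have hq := q_pos
    rcases coeff_cases (v := v.1) (fun a => kap a v.1) (fun a => kap_nonneg a _)
      (fun a h => lt_of_le_of_ne (kap_nonneg a _) (Ne.symm h)) with ⟨a, ha, -, hsum⟩ | h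
    · have h1 : (1 - s) • v.1 + s • G id v.1 =
          ((1 - s) • v.1.1 + (s * kap a v.1) • mu a, v.1.2) := by
        unfold G
        rw [hsum (fun a => mu (id a))]
        ext1
        · simp only [id, Prod.fst_add, Prod.smul_fst, Prod.smul_mk, smul_smul]
        · simp only [Prod.snd_add, Prod.smul_snd, Prod.smul_mk, smul_eq_mul]
          ring
      rw [h1]
      set l := kap a v.1 with hl
      obtain ⟨hy0, hyx⟩ := kap_pos_sec ha
      have hk := (kap_pos_iff a v.1).mp ha
      have hzabs := abs_nonneg v.1.2
      have hl1 : l ≤ yy a v.1.1 := by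
        have : l ≤ yy a v.1.1 - |v.1.2| := by
          rw [hl]
          unfold kap
          apply max_le (by linarith)
          exact sub_le_sub_right (min_le_left _ _) _
        linarith
      have hl2 : l ≤ -(yy (a + 1) v.1.1) := by
        have : l ≤ -(yy (a + 1) v.1.1) - |v.1.2| := by
          rw [hl]
          unfold kap
          apply max_le (by linarith)
          exact sub_le_sub_right (min_le_right _ _) _
        linarith
      set W : ℂ := (1 - s) • v.1.1 + (s * l) • mu a with hW
      have hX : xx a W = (1 - s) * xx a v.1.1 + s * l * (1 + q) := by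
        rw [hW, xx_add', xx_smul, xx_smul, xx_mu]
      have hY : yy a W = (1 - s) * yy a v.1.1 + s * l * q := by
        rw [hW, yy_add', yy_smul, yy_smul, yy_mu]
      have hY0 : 0 ≤ yy a W := by
        rw [hY]
        have : 0 ≤ 1 - s := by linarith
        positivity
      have hYX : yy a W ≤ xx a W := by
        rw [hX, hY]
        have h2 : (1 - s) * yy a v.1.1 ≤ (1 - s) * xx a v.1.1 :=
          mul_le_mul_of_nonneg_left hyx.le (by linarith)
        have h3 : 0 ≤ s * l := by positivity
        nlinarith
      have hXpos : 0 < xx a W := by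
        rw [hX]
        rcases hs0.eq_or_lt with h2 | h2
        · rw [← h2]
          linarith
        · have h3 : 0 < s * l * (1 + q) := by positivity
          have h4 : 0 ≤ (1 - s) * xx a v.1.1 := mul_nonneg (by linarith) (by linarith)
          linarith
      refine ⟨fun h2 => ?_, fun k => ?_⟩
      · have h3 : W = 0 := congrArg Prod.fst h2
        rw [h3] at hXpos
        simp [xx] at hXpos
      · by_cases hka : k = a
        · subst hka
          rw [out_iff]
          intro _
          simp only
          rw [hX, hY]
          apply ineq_key (by linarith) hy0.le ha.le hl1 hs0 hs1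
          exact (out_iff k v.1).mp (out_S v k) (by linarith)
        · by_cases hka' : k = a + 1
          · subst hka'
            rw [out_iff]
            intro _
            simp only
            have hX' : xx (a + 1) W = (1 - s) * xx (a + 1) v.1.1 + s * l * (1 + q) := by
              rw [hW, xx_add', xx_smul, xx_smul]
              congr 2
              rw [xx_add_one, xx_mu, yy_mu]
              have := q_sq
              linear_combination 2 * this
            have hY' : yy (a + 1) W = -((1 - s) * (-yy (a + 1) v.1.1) + s * l * q) := by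
              rw [hW, yy_add', yy_smul, yy_smul, yy_mu_succ]
              ring
            rw [hX', hY', neg_sq]
            have hx' : 0 ≤ xx (a + 1) v.1.1 := by
              rw [xx_add_one]
              exact mul_nonneg hq.le (by linarith)
            apply ineq_key hx' (by linarith) ha.le hl2 hs0 hs1
            rw [neg_sq]
            exact (out_iff (a + 1) v.1).mp (out_S v (a + 1)) hx'
          · exact out_of_planar (sector_far hY0 hYX hka hka')
    · have h1 : (1 - s) • v.1 + s • G id v.1 = ((1 - s) • v.1.1, v.1.2) := by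
        unfold G
        simp only [h, zero_smul, Finset.sum_const_zero]
        ext1
        · simp
        · simp only [Prod.snd_add, Prod.smul_snd, Prod.smul_mk, smul_eq_mul]
          ring
      rw [h1]
      have hz : v.1.2 ≠ 0 := by
        intro h2
        obtain ⟨a, ha⟩ := exists_kap_pos v h2
        exact ha.ne' (h a)
      refine ⟨fun h2 => hz (congrArg Prod.snd h2), fun k => ?_⟩
      rw [out_iff]
      simp only [xx_smul, yy_smul]
      intro h2
      rcases hs1.eq_or_lt with h3 | h3
      · rw [h3]
        simp only [sub_self, zero_mul]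
        nlinarith [sq_nonneg v.1.2]
      · have h4 : 0 < 1 - s := by linarith
        have h5 : 0 ≤ xx k v.1.1 := by
          by_contra h6
          push Not at h6
          nlinarith
        have h6 := (out_iff k v.1).mp (out_S v k) h5
        have h7 : (1 - s) ^ 2 ≤ 1 := by nlinarith
        have h8 : (1 - s) ^ 2 * (121 * xx k v.1.1 ^ 2) ≤
            (1 - s) ^ 2 * (3600 * (yy k v.1.1 ^ 2 + v.1.2 ^ 2)) :=
          mul_le_mul_of_nonneg_left h6 (sq_nonneg _)
        have h9 : (1 - s) ^ 2 * v.1.2 ^ 2 ≤ 1 * v.1.2 ^ 2 :=
          mul_le_mul_of_nonneg_right h7 (sq_nonneg _)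
        nlinarith
  exact homotopic_mkS (fun v : S => v.1) (fun v : S => G id v.1) continuous_subtype_val
    ((continuous_G _).comp continuous_subtype_val) (fun v s hs => (main v s hs).1)
    (fun v s hs => (main v s hs).2) _ _ (fun v => (nrm_eq_self v).symm) (fun v => R_val _ v)

end Pool.Agent.Helper57.MCG
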