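import Pool.Agent.Helper57.MCG.Surface

/-!
# Strips between the holes, and the collapsing maps
-/

set_option autoImplicit false

open Set Topology

namespace Pool.Agent.Helper57.MCG

/-- width function of the `a`-th strip -/
noncomputable def kap (a : ZMod 8) (v : ℂ × ℝ) : ℝ :=
  max 0 (min (yy a v.1) (-(yy (a + 1) v.1)) - |v.2|)

/-- middle direction of the `a`-th strip -/
noncomputable def mu (a : ZMod 8) : ℂ := dir a + dir (a + 1)

lemma kap_nonneg (a : ZMod 8) (v : ℂ × ℝ) : 0 ≤ kap a v := le_max_left _ _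

lemma kap_pos_iff (a : ZMod 8) (v : ℂ × ℝ) :
    0 < kap a v ↔ |v.2| < yy a v.1 ∧ |v.2| < -(yy (a + 1) v.1) := by
  unfold kap
  rw [lt_max_iff, lt_self_iff_false, false_or, sub_pos, lt_min_iff]

lemma kap_pos_sec {a : ZMod 8} {v : ℂ × ℝ} (h : 0 < kap a v) :
    0 < yy a v.1 ∧ yy a v.1 < xx a v.1 := by
  rw [kap_pos_iff, yy_add_one] at h
  have h0 := abs_nonneg v.2
  refine ⟨by linarith, ?_⟩
  have := q_pos
  nlinarith

lemma continuous_kap (a : ZMod 8) : Continuous (kap a) := by
  unfold kap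
  have h1 := (continuous_yy a).comp (continuous_fst (X := ℂ) (Y := ℝ))
  have h2 := (continuous_yy (a + 1)).comp (continuous_fst (X := ℂ) (Y := ℝ))
  exact continuous_const.max ((h1.min h2.neg).sub continuous_snd.abs)

lemma kap_smul (a : ZMod 8) {r : ℝ} (hr : 0 ≤ r) (v : ℂ × ℝ) : kap a (r • v) = r * kap a v := by
  unfold kap
  simp only [Prod.smul_fst, Prod.smul_snd, yy_smul, smul_eq_mul, abs_mul, abs_of_nonneg hr]
  rw [← mul_neg, ← mul_min_of_nonneg _ _ hr, ← mul_sub, mul_max_of_nonneg _ _ hr, mul_zero]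

/-- a point lies in at most one strip -/
lemma sec_unique {a b : ZMod 8} {w : ℂ} (h1 : 0 < yy a w) (h2 : yy a w < xx a w)
    (h3 : 0 < yy b w) (h4 : yy b w < xx b w) : a = b := by
  have hq := q_pos
  have hX : 0 < xx a w := h1.trans h2
  rcases shift_cases a b with h | h | h | h | h | h | h | h <;> subst h
  · rfl
  · exfalso
    rw [yy_add_one] at h3
    nlinarith
  · exfalso
    rw [yy_add_two] at h3
    linarith
  · exfalso
    rw [yy_add_three] at h3
    nlinarith
  · exfalso
    rw [yy_add_four] at h3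
    linarith
  · exfalso
    rw [yy_add_five, xx_add_five] at h4
    nlinarith
  · exfalso
    rw [yy_add_six, xx_add_six] at h4
    linarith
  · exfalso
    rw [yy_add_seven, xx_add_seven] at h4
    nlinarith

lemma kap_unique {a b : ZMod 8} {v : ℂ × ℝ} (h1 : 0 < kap a v) (h2 : 0 < kap b v) : a = b := by
  obtain ⟨h3, h4⟩ := kap_pos_sec h1
  obtain ⟨h5, h6⟩ := kap_pos_sec h2
  exact sec_unique h3 h4 h5 h6

/-- every point on the equator of the surface lies in a strip -/
lemma exists_kap_pos (v : S) (hz : v.1.2 = 0) : ∃ a, 0 < kap a v.1 := by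
  -- choose the index by the signs of the coordinates
  have hS := v.2.1
  rw [hz] at hS
  have hne : ∀ k, yy k v.1.1 = 0 → xx k v.1.1 < 0 := by
    intro k hk
    have h1 := xx_sq_add_yy_sq k v.1.1
    have h2 := v.2.2 k
    rw [hk] at h1
    by_contra h3
    push Not at h3
    nlinarith
  have hn : ∀ k, yy k v.1.1 ≠ 0 := by
    intro k hk
    have h1 := hne k hk
    have h2 := hne (k + 4) (by rw [yy_add_four, hk, neg_zero])
    rw [xx_add_four] at h2
    linarith
  have hq := q_pos
  have hx : ∀ a, 0 < yy a v.1.1 → yy a v.1.1 < xx a v.1.1 → 0 < kap a v.1 := by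
    intro a h1 h2
    rw [kap_pos_iff, hz, abs_zero, yy_add_one]
    refine ⟨h1, ?_⟩
    nlinarith
  set x := xx 0 v.1.1 with hxdef
  set y := yy 0 v.1.1 with hydef
  have h0 := hn 0
  have h1 := hn (0 + 1)
  have h2 := hn (0 + 2)
  have h3 := hn (0 + 3)
  rw [yy_add_one] at h1
  rw [yy_add_two] at h2
  rw [yy_add_three] at h3
  rw [← hxdef] at h1 h2 h3
  rw [← hydef] at h0 h1 h3
  have h1' : y - x ≠ 0 := fun h => h1 (by rw [h, mul_zero])
  have h3' : x + y ≠ 0 := fun h => h3 (by rw [h, mul_zero, neg_zero])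
  have h2' : x ≠ 0 := fun h => h2 (by rw [h, neg_zero])
  rcases lt_or_gt_of_ne h0 with hy | hy <;> rcases lt_or_gt_of_ne h2' with hxx | hxx
  · -- y < 0, x < 0 : sectors 4, 5
    rcases lt_or_gt_of_ne h1' with hd | hd
    · refine ⟨0 + 5, hx _ ?_ ?_⟩
      · rw [yy_add_five, ← hxdef, ← hydef]; nlinarith
      · rw [yy_add_five, xx_add_five, ← hxdef, ← hydef]; nlinarith
    · refine ⟨0 + 4, hx _ ?_ ?_⟩
      · rw [yy_add_four, ← hydef]; linarith
      · rw [yy_add_four, xx_add_four, ← hxdef, ← hydef]; linarith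
  · -- y < 0, x > 0 : sectors 6, 7
    rcases lt_or_gt_of_ne h3' with hd | hd
    · refine ⟨0 + 6, hx _ ?_ ?_⟩
      · rw [yy_add_six, ← hxdef]; linarith
      · rw [yy_add_six, xx_add_six, ← hxdef, ← hydef]; linarith
    · refine ⟨0 + 7, hx _ ?_ ?_⟩
      · rw [yy_add_seven, ← hxdef, ← hydef]; nlinarith
      · rw [yy_add_seven, xx_add_seven, ← hxdef, ← hydef]; nlinarith
  · -- y > 0, x < 0 : sectors 2, 3
    rcases lt_or_gt_of_ne h3' with hd | hd
    · refine ⟨0 + 3, hx _ ?_ ?_⟩
      · rw [yy_add_three, ← hxdef, ← hydef]; nlinarith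
      · rw [yy_add_three, xx_add_three, ← hxdef, ← hydef]; nlinarith
    · refine ⟨0 + 2, hx _ ?_ ?_⟩
      · rw [yy_add_two, ← hxdef]; linarith
      · rw [yy_add_two, xx_add_two, ← hxdef, ← hydef]; linarith
  · -- y > 0, x > 0 : sectors 0, 1
    rcases lt_or_gt_of_ne h1' with hd | hd
    · refine ⟨0, hx _ ?_ ?_⟩
      · exact hy
      · rw [← hxdef, ← hydef]; linarith
    · refine ⟨0 + 1, hx _ ?_ ?_⟩
      · rw [yy_add_one, ← hxdef, ← hydef]; nlinarith
      · rw [yy_add_one, xx_add_one, ← hxdef, ← hydef]; nlinarith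

/-! ### values at the middle directions -/

lemma xx_dir (a : ZMod 8) : xx a (dir a) = 1 := by
  unfold xx; rw [dir_mul_conj]; simp

lemma yy_dir (a : ZMod 8) : yy a (dir a) = 0 := by
  unfold yy; rw [dir_mul_conj]; simp

lemma xx_dir_succ (a : ZMod 8) : xx a (dir (a + 1)) = q := by
  have h := xx_mul_dir 0 a (dir 1)
  rw [zero_add] at h
  rw [dir_add, mul_comm, h, xx_zero, dir_one]
  simp

lemma yy_dir_succ (a : ZMod 8) : yy a (dir (a + 1)) = q := by
  have h := yy_mul_dir 0 a (dir 1)
  rw [zero_add] at h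
  rw [dir_add, mul_comm, h, yy_zero, dir_one]
  simp

lemma xx_mu (a : ZMod 8) : xx a (mu a) = 1 + q := by
  rw [mu, xx_add', xx_dir, xx_dir_succ]

lemma yy_mu (a : ZMod 8) : yy a (mu a) = q := by
  rw [mu, yy_add', yy_dir, yy_dir_succ, zero_add]

lemma mu_ne_zero (a : ZMod 8) : mu a ≠ 0 := by
  intro h
  have h1 := yy_mu a
  rw [h] at h1
  simp [yy] at h1
  exact q_pos.ne h1

lemma yy_mu_succ (a : ZMod 8) : yy (a + 1) (mu a) = -q := by
  rw [yy_add_one, xx_mu, yy_mu]
  ring

/-- planar condition implying that a direction avoids the `k`-th cap -/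
lemma out_of_planar {k : ZMod 8} {w : ℂ} {z : ℝ} (h : 11 * xx k w ≤ 60 * |yy k w|) :
    Out k (w, z) := by
  unfold Out
  refine h.trans ?_
  apply mul_le_mul_of_nonneg_left _ (by norm_num)
  rw [← Real.sqrt_sq_eq_abs]
  apply Real.sqrt_le_sqrt
  simp only
  nlinarith [sq_nonneg z]

lemma planar_mu (b k : ZMod 8) : 11 * xx k (mu b) ≤ 60 * |yy k (mu b)| := by
  have hq := q_pos
  have hq1 := q_lt
  have hq2 := lt_q
  have hx := xx_mu b
  have hy := yy_mu b
  rcases shift_cases b k with h | h | h | h | h | h | h | h <;> subst h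
  · rw [hx, hy, abs_of_pos hq]; linarith
  · rw [xx_add_one, yy_add_one, hx, hy]
    rw [show q * (q - (1 + q)) = -q by ring, abs_neg, abs_of_pos hq]
    nlinarith [q_sq]
  · rw [xx_add_two, yy_add_two, hx, hy, abs_neg, abs_of_pos (by linarith)]
    linarith
  · rw [xx_add_three, hx, hy]
    have : 0 ≤ |yy (b + 3) (mu b)| := abs_nonneg _
    nlinarith
  · rw [xx_add_four, hx]
    have : 0 ≤ |yy (b + 4) (mu b)| := abs_nonneg _
    nlinarith
  · rw [xx_add_five, hx, hy]
    have : 0 ≤ |yy (b + 5) (mu b)| := abs_nonneg _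
    nlinarith
  · rw [xx_add_six, hy]
    have : 0 ≤ |yy (b + 6) (mu b)| := abs_nonneg _
    nlinarith
  · rw [xx_add_seven, yy_add_seven, hx, hy, abs_of_pos (by nlinarith)]
    nlinarith [q_sq]

lemma out_mu (b k : ZMod 8) {l : ℝ} (hl : 0 ≤ l) (z : ℝ) : Out k (l • mu b, z) := by
  apply out_of_planar
  rw [xx_smul, yy_smul, abs_mul, abs_of_nonneg hl]
  have := planar_mu b k
  nlinarith

lemma kap_mu (c b : ZMod 8) {l : ℝ} (hl : 0 ≤ l) (z : ℝ) :
    kap c (l • mu b, z) = if c = b then max 0 (q * l - |z|) else 0 := by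
  have hq := q_pos
  have hx := xx_mu b
  have hy := yy_mu b
  split_ifs with h
  · subst h
    unfold kap
    simp only [yy_smul, yy_mu, yy_mu_succ]
    congr 1
    rw [mul_neg, neg_neg, min_self, mul_comm]
  · by_contra h0
    have h1 : 0 < kap c (l • mu b, z) := lt_of_le_of_ne (kap_nonneg _ _) (Ne.symm h0)
    rw [kap_pos_iff] at h1
    simp only [yy_smul] at h1
    have hz := abs_nonneg z
    have hl' : 0 < l := by
      rcases hl.eq_or_lt with h2 | h2
      · rw [← h2] at h1
        linarith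
      · exact h2
    have h2 : 0 < yy c (mu b) := by
      by_contra h3
      push Not at h3
      nlinarith
    have h3 : yy (c + 1) (mu b) < 0 := by
      by_contra h3
      push Not at h3
      nlinarith
    apply h
    rw [yy_add_one] at h3
    refine (sec_unique (a := b) (b := c) (w := mu b) ?_ ?_ h2 ?_).symm
    · rw [hy]; exact hq
    · rw [hy, hx]; linarith
    · nlinarith

/-! ### collapsing maps -/

/-- a nonnegative coefficient family supported on strips has at most one nonzero member -/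
lemma coeff_cases {v : ℂ × ℝ} (c : ZMod 8 → ℝ) (hc : ∀ a, 0 ≤ c a)
    (hs : ∀ a, c a ≠ 0 → 0 < kap a v) :
    (∃ a, 0 < c a ∧ 0 < kap a v ∧ ∀ (m : ZMod 8 → ℂ), ∑ b, c b • m b = c a • m a) ∨
      (∀ a, c a = 0) := by
  by_cases h : ∃ a, c a ≠ 0
  · left
    obtain ⟨a, ha⟩ := h
    refine ⟨a, lt_of_le_of_ne (hc a) (Ne.symm ha), hs a ha, fun m => ?_⟩
    apply Finset.sum_eq_single a
    · intro b _ hb
      have : c b = 0 := by
        by_contra h1
        exact hb (kap_unique (hs b h1) (hs a ha))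
      rw [this, zero_smul]
    · intro h1
      exact absurd (Finset.mem_univ a) h1
  · right
    push Not at h
    exact h

/-- unnormalized collapsing map -/
noncomputable def G (φ : ZMod 8 → ZMod 8) (v : ℂ × ℝ) : ℂ × ℝ :=
  (∑ a, kap a v • mu (φ a), v.2)

lemma continuous_G (φ : ZMod 8 → ZMod 8) : Continuous (G φ) := by
  unfold G
  refine Continuous.prodMk ?_ continuous_snd
  exact continuous_finsetSum _ fun a _ => (continuous_kap a).smul continuous_const

lemma G_smul (φ : ZMod 8 → ZMod 8) {r : ℝ} (hr : 0 ≤ r) (v : ℂ × ℝ) : G φ (r • v) = r • G φ v := by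
  unfold G
  simp only [kap_smul _ hr, Prod.smul_snd, Prod.smul_mk, Finset.smul_sum, smul_smul]

/-- general facts on vectors of the form `(∑ c a • mu (φ a), z)` -/
lemma comb_props {v : S} (c : ZMod 8 → ℝ) (hc : ∀ a, 0 ≤ c a)
    (hs : ∀ a, c a ≠ 0 → 0 < kap a v.1) (hz : v.1.2 = 0 → ∃ a, c a ≠ 0)
    (φ : ZMod 8 → ZMod 8) :
    ((∑ a, c a • mu (φ a), v.1.2) : ℂ × ℝ) ≠ 0 ∧
      ∀ k, Out k ((∑ a, c a • mu (φ a), v.1.2) : ℂ × ℝ) := by
  rcases coeff_cases c hc hs with ⟨a, ha, hka, hsum⟩ | h
  · rw [hsum (fun a => mu (φ a))]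
    refine ⟨fun h => ?_, fun k => out_mu _ k ha.le _⟩
    have h1 := congrArg Prod.fst h
    simp only [Prod.fst_zero, smul_eq_zero] at h1
    rcases h1 with h1 | h1
    · exact ha.ne' h1
    · exact mu_ne_zero _ h1
  · have hsum : ∑ a, c a • mu (φ a) = 0 := by
      apply Finset.sum_eq_zero
      intro a _
      rw [h a, zero_smul]
    rw [hsum]
    have hz' : v.1.2 ≠ 0 := by
      intro h1
      obtain ⟨a, ha⟩ := hz h1
      exact ha (h a)
    refine ⟨fun h1 => hz' (congrArg Prod.snd h1), fun k => ?_⟩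
    have := out_mu 0 k le_rfl v.1.2
    rwa [zero_smul] at this

/-- the collapsing map -/
noncomputable def R (φ : ZMod 8 → ZMod 8) : C(S, S) :=
  mkS (fun v : S => G φ v.1) ((continuous_G φ).comp continuous_subtype_val)
    (fun v => (comb_props (fun a => kap a v.1) (fun a => kap_nonneg a _)
      (fun a h => lt_of_le_of_ne (kap_nonneg a _) (Ne.symm h))
      (fun h => (exists_kap_pos v h).imp fun a ha => ha.ne') φ).1)
    (fun v => (comb_props (fun a => kap a v.1) (fun a => kap_nonneg a _)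
      (fun a h => lt_of_le_of_ne (kap_nonneg a _) (Ne.symm h))
      (fun h => (exists_kap_pos v h).imp fun a ha => ha.ne') φ).2)

lemma R_val (φ : ZMod 8 → ZMod 8) (v : S) : (R φ v : ℂ × ℝ) = nrm (G φ v.1) := rfl

lemma G_G (φ ψ : ZMod 8 → ZMod 8) (v : S) :
    G φ (G ψ v.1) = (∑ a, (max 0 (q * kap a v.1 - |v.1.2|)) • mu (φ (ψ a)), v.1.2) := by
  rcases coeff_cases (v := v.1) (fun a => kap a v.1) (fun a => kap_nonneg a _)
    (fun a h => lt_of_le_of_ne (kap_nonneg a _) (Ne.symm h)) with ⟨a, ha, -, hsum⟩ | h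
  · have h1 : G ψ v.1 = (kap a v.1 • mu (ψ a), v.1.2) := by
      unfold G
      rw [hsum (fun a => mu (ψ a))]
    rw [h1]
    unfold G
    ext1
    · simp only
      rw [Finset.sum_eq_single (ψ a), Finset.sum_eq_single a]
      · rw [kap_mu _ _ ha.le, if_pos rfl]
      · intro b _ hb
        have : kap b v.1 = 0 := by
          by_contra h2
          exact hb (kap_unique (lt_of_le_of_ne (kap_nonneg b _) (Ne.symm h2)) ha)
        rw [this, mul_zero, zero_sub, max_eq_left (by simp), zero_smul]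
      · intro h2
        exact absurd (Finset.mem_univ _) h2
      · intro b _ hb
        rw [kap_mu _ _ ha.le, if_neg hb, zero_smul]
      · intro h2
        exact absurd (Finset.mem_univ _) h2
    · rfl
  · have h1 : G ψ v.1 = (0, v.1.2) := by
      unfold G
      simp only [h, zero_smul, Finset.sum_const_zero]
    rw [h1]
    unfold G
    ext1
    · simp only
      have h3 : ∀ c, kap c ((0 : ℂ), v.1.2) = 0 := by
        intro c
        have := kap_mu c 0 le_rfl v.1.2
        rw [zero_smul] at this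
        rw [this]
        split_ifs
        · simp
        · rfl
      simp only [h3, zero_smul, Finset.sum_const_zero]
      symm
      apply Finset.sum_eq_zero
      intro b _
      rw [h b, mul_zero, zero_sub, max_eq_left (by simp), zero_smul]
    · rfl

lemma R_comp_val (φ ψ : ZMod 8 → ZMod 8) (v : S) :
    (((R φ).comp (R ψ)) v : ℂ × ℝ) = nrm (G φ (G ψ v.1)) := by
  change nrm (G φ (nrm (G ψ v.1))) = _
  have h0 : G ψ v.1 ≠ 0 := (comb_props (fun a => kap a v.1) (fun a => kap_nonneg a _)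
      (fun a h => lt_of_le_of_ne (kap_nonneg a _) (Ne.symm h))
      (fun h => (exists_kap_pos v h).imp fun a ha => ha.ne') ψ).1
  have hp := inv_pos.mpr (en_pos h0)
  rw [nrm.eq_1 (G ψ v.1), G_smul φ hp.le, nrm_smul hp]

lemma R_comp (φ ψ : ZMod 8 → ZMod 8) :
    ContinuousMap.Homotopic ((R φ).comp (R ψ)) (R (φ ∘ ψ)) := by
  refine homotopic_mkS (fun v : S => G φ (G ψ v.1)) (fun v : S => G (φ ∘ ψ) v.1)
    ((continuous_G φ).comp ((continuous_G ψ).comp continuous_subtype_val))
    ((continuous_G _).comp continuous_subtype_val) ?_ ?_ _ _ (R_comp_val φ ψ)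
    (fun v => R_val _ v)
  all_goals
    intro v s hs
    have key : (1 - s) • G φ (G ψ v.1) + s • G (φ ∘ ψ) v.1 =
        (∑ a, ((1 - s) * max 0 (q * kap a v.1 - |v.1.2|) + s * kap a v.1) • mu (φ (ψ a)),
          v.1.2) := by
      rw [G_G]
      unfold G
      ext1
      · simp only [Prod.smul_mk, Prod.mk_add_mk, Function.comp_apply]
        rw [Finset.smul_sum, Finset.smul_sum, ← Finset.sum_add_distrib]
        apply Finset.sum_congr rfl
        intro a _
        rw [smul_smul, smul_smul, ← add_smul]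
      · simp only [Prod.smul_mk, Prod.mk_add_mk, smul_eq_mul]
        ring
    rw [key]
    have hs0 := hs.1
    have hs1 := hs.2
    have props := comb_props (v := v)
      (fun a => (1 - s) * max 0 (q * kap a v.1 - |v.1.2|) + s * kap a v.1)
      (fun a => by
        have h1 := kap_nonneg a v.1
        have h2 : 0 ≤ max 0 (q * kap a v.1 - |v.1.2|) := le_max_left _ _
        have h3 : 0 ≤ 1 - s := by linarith
        positivity)
      (fun a ha => by
        by_contra h1
        have h2 : kap a v.1 = 0 := le_antisymm (not_lt.mp h1) (kap_nonneg a _)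
        apply ha
        rw [h2, mul_zero, zero_sub, max_eq_left (by simp), mul_zero, mul_zero, add_zero])
      (fun hz => by
        obtain ⟨a, ha⟩ := exists_kap_pos v hz
        refine ⟨a, ?_⟩
        have hq := q_pos
        have h1 : 0 < q * kap a v.1 := by positivity
        rw [hz, abs_zero, sub_zero, max_eq_right h1.le]
        rcases hs0.eq_or_lt with h2 | h2
        · rw [← h2]
          simp only [sub_zero, one_mul, zero_mul, add_zero]
          exact h1.ne'
        · have h3 : 0 ≤ (1 - s) * (q * kap a v.1) := mul_nonneg (by linarith) h1.le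
          have h4 : 0 < s * kap a v.1 := by positivity
          linarith)
      (fun a => φ (ψ a))
  · exact props.1
  · exact props.2

end Pool.Agent.Helper57.MCG
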