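import Pool.Agent.Helper57.MCG.Defs

/-!
# The sphere with eight holes
-/

set_option autoImplicit false

open Set Topology

namespace Pool.Agent.Helper57.MCG

/-- The eighth root of unity `exp (2 π i k / 8)`. -/
noncomputable def dir (k : ZMod 8) : ℂ := (ZMod.toCircle k : ℂ)

/-- The coordinate of `w` in the direction `dir k`. -/
noncomputable def xx (k : ZMod 8) (w : ℂ) : ℝ := (w * (starRingEnd ℂ) (dir k)).re

/-- The coordinate of `w` in the direction orthogonal to `dir k`. -/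
noncomputable def yy (k : ZMod 8) (w : ℂ) : ℝ := (w * (starRingEnd ℂ) (dir k)).im

/-- The sphere with eight holes: the points `(w, z)` of the unit sphere of `ℂ × ℝ` outside the eight
disjoint open round caps centred at the points `(exp (2 π i k / 8), 0)` of the equator. -/
def SSet : Set (ℂ × ℝ) := {v | ‖v.1‖ ^ 2 + v.2 ^ 2 = 1 ∧ ∀ k : ZMod 8, xx k v.1 ≤ 60 / 61}

/-- The sphere with eight holes, as a space. -/
abbrev S : Type := SSet

/-- The boundary of the sphere with eight holes, consisting of the eight boundary circles of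
the caps. -/
def bdS : Set S := {v | ∃ k : ZMod 8, xx k v.1.1 = 60 / 61}

/-! ### directions -/

lemma dir_zero : dir 0 = 1 := by simp [dir]

lemma dir_add (a b : ZMod 8) : dir (a + b) = dir a * dir b := by
  simp [dir, AddChar.map_add_eq_mul]

lemma norm_dir (k : ZMod 8) : ‖dir k‖ = 1 := Circle.norm_coe _

lemma dir_mul_conj (k : ZMod 8) : dir k * (starRingEnd ℂ) (dir k) = 1 := by
  rw [Complex.mul_conj, Complex.normSq_eq_norm_sq, norm_dir]
  simp

lemma dir_ne_zero (k : ZMod 8) : dir k ≠ 0 := by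
  intro h
  have := norm_dir k
  rw [h, norm_zero] at this
  norm_num at this

/-- half of the square root of two -/
noncomputable def q : ℝ := Real.sqrt 2 / 2

lemma q_pos : 0 < q := by unfold q; positivity

lemma q_sq : q * q = 1 / 2 := by
  unfold q
  have h : Real.sqrt 2 * Real.sqrt 2 = 2 := Real.mul_self_sqrt (by norm_num)
  nlinarith

lemma q_lt : q < 0.7072 := by
  have := q_sq
  have := q_pos
  nlinarith

lemma lt_q : 0.7071 < q := by
  have := q_sq
  have := q_pos
  nlinarith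

lemma dir_one : dir 1 = (q : ℂ) + q * Complex.I := by
  have h := ZMod.toCircle_natCast (N := 8) 1
  rw [Nat.cast_one] at h
  rw [dir, h]
  have e : (2 * (Real.pi : ℂ) * Complex.I * ((1 : ℕ) : ℂ) / ((8 : ℕ) : ℂ)) =
      ((Real.pi / 4 : ℝ) : ℂ) * Complex.I := by
    push_cast
    ring
  rw [e, Complex.exp_mul_I, ← Complex.ofReal_cos, ← Complex.ofReal_sin, Real.cos_pi_div_four,
    Real.sin_pi_div_four]
  rfl

lemma xx_zero (w : ℂ) : xx 0 w = w.re := by simp [xx, dir_zero]
lemma yy_zero (w : ℂ) : yy 0 w = w.im := by simp [yy, dir_zero]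

lemma xx_add_one (k : ZMod 8) (w : ℂ) : xx (k + 1) w = q * (xx k w + yy k w) := by
  unfold xx yy
  rw [dir_add, dir_one, map_mul, ← mul_assoc]
  set u := w * (starRingEnd ℂ) (dir k)
  simp [Complex.mul_re, Complex.mul_im]
  ring

lemma yy_add_one (k : ZMod 8) (w : ℂ) : yy (k + 1) w = q * (yy k w - xx k w) := by
  unfold xx yy
  rw [dir_add, dir_one, map_mul, ← mul_assoc]
  set u := w * (starRingEnd ℂ) (dir k)
  simp [Complex.mul_re, Complex.mul_im]
  ring

lemma xx_add_two (k : ZMod 8) (w : ℂ) : xx (k + 2) w = yy k w := by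
  rw [show k + 2 = k + 1 + 1 by ring, xx_add_one, xx_add_one, yy_add_one]
  have := q_sq
  linear_combination (2 * yy k w) * this

lemma yy_add_two (k : ZMod 8) (w : ℂ) : yy (k + 2) w = - xx k w := by
  rw [show k + 2 = k + 1 + 1 by ring, yy_add_one, xx_add_one, yy_add_one]
  have := q_sq
  linear_combination (-2 * xx k w) * this

lemma xx_add_three (k : ZMod 8) (w : ℂ) : xx (k + 3) w = q * (yy k w - xx k w) := by
  rw [show k + 3 = k + 2 + 1 by ring, xx_add_one, xx_add_two, yy_add_two]; ring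

lemma yy_add_three (k : ZMod 8) (w : ℂ) : yy (k + 3) w = - (q * (xx k w + yy k w)) := by
  rw [show k + 3 = k + 2 + 1 by ring, yy_add_one, xx_add_two, yy_add_two]; ring

lemma xx_add_four (k : ZMod 8) (w : ℂ) : xx (k + 4) w = - xx k w := by
  rw [show k + 4 = k + 2 + 2 by ring, xx_add_two, yy_add_two]

lemma yy_add_four (k : ZMod 8) (w : ℂ) : yy (k + 4) w = - yy k w := by
  rw [show k + 4 = k + 2 + 2 by ring, yy_add_two, xx_add_two]

lemma xx_add_five (k : ZMod 8) (w : ℂ) : xx (k + 5) w = - (q * (xx k w + yy k w)) := by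
  rw [show k + 5 = k + 1 + 4 by ring, xx_add_four, xx_add_one]

lemma yy_add_five (k : ZMod 8) (w : ℂ) : yy (k + 5) w = - (q * (yy k w - xx k w)) := by
  rw [show k + 5 = k + 1 + 4 by ring, yy_add_four, yy_add_one]

lemma xx_add_six (k : ZMod 8) (w : ℂ) : xx (k + 6) w = - yy k w := by
  rw [show k + 6 = k + 2 + 4 by ring, xx_add_four, xx_add_two]

lemma yy_add_six (k : ZMod 8) (w : ℂ) : yy (k + 6) w = xx k w := by
  rw [show k + 6 = k + 2 + 4 by ring, yy_add_four, yy_add_two, neg_neg]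

lemma xx_add_seven (k : ZMod 8) (w : ℂ) : xx (k + 7) w = - (q * (yy k w - xx k w)) := by
  rw [show k + 7 = k + 3 + 4 by ring, xx_add_four, xx_add_three]

lemma yy_add_seven (k : ZMod 8) (w : ℂ) : yy (k + 7) w = q * (xx k w + yy k w) := by
  rw [show k + 7 = k + 3 + 4 by ring, yy_add_four, yy_add_three, neg_neg]

/-- every index is a translate of a given one by one of eight shifts -/
lemma shift_cases (a k : ZMod 8) : k = a ∨ k = a + 1 ∨ k = a + 2 ∨ k = a + 3 ∨ k = a + 4 ∨
    k = a + 5 ∨ k = a + 6 ∨ k = a + 7 := by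
  revert a k
  decide

lemma xx_sq_add_yy_sq (k : ZMod 8) (w : ℂ) : xx k w ^ 2 + yy k w ^ 2 = ‖w‖ ^ 2 := by
  unfold xx yy
  have h : ‖w * (starRingEnd ℂ) (dir k)‖ = ‖w‖ := by
    rw [norm_mul, RCLike.norm_conj, norm_dir, mul_one]
  rw [← h, ← Complex.normSq_eq_norm_sq, Complex.normSq_apply]
  ring

lemma continuous_xx (k : ZMod 8) : Continuous (xx k) := by
  unfold xx
  exact Complex.continuous_re.comp (continuous_id.mul continuous_const)

lemma continuous_yy (k : ZMod 8) : Continuous (yy k) := by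
  unfold yy
  exact Complex.continuous_im.comp (continuous_id.mul continuous_const)

lemma xx_add' (k : ZMod 8) (w w' : ℂ) : xx k (w + w') = xx k w + xx k w' := by
  simp only [xx, add_mul, Complex.add_re]

lemma yy_add' (k : ZMod 8) (w w' : ℂ) : yy k (w + w') = yy k w + yy k w' := by
  simp only [yy, add_mul, Complex.add_im]

lemma xx_smul (k : ZMod 8) (r : ℝ) (w : ℂ) : xx k (r • w) = r * xx k w := by
  simp only [xx, smul_mul_assoc, Complex.smul_re, smul_eq_mul]

lemma yy_smul (k : ZMod 8) (r : ℝ) (w : ℂ) : yy k (r • w) = r * yy k w := by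
  simp only [yy, smul_mul_assoc, Complex.smul_im, smul_eq_mul]

lemma xx_mul_dir (k j : ZMod 8) (w : ℂ) : xx (k + j) (w * dir j) = xx k w := by
  unfold xx
  rw [dir_add, map_mul]
  congr 1
  have := dir_mul_conj j
  linear_combination (w * (starRingEnd ℂ) (dir k)) * this

lemma yy_mul_dir (k j : ZMod 8) (w : ℂ) : yy (k + j) (w * dir j) = yy k w := by
  unfold yy
  rw [dir_add, map_mul]
  congr 1
  have := dir_mul_conj j
  linear_combination (w * (starRingEnd ℂ) (dir k)) * this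

/-! ### topology of `S` -/

lemma isClosed_SSet : IsClosed SSet := by
  have : SSet = {v : ℂ × ℝ | ‖v.1‖ ^ 2 + v.2 ^ 2 = 1} ∩
      ⋂ k : ZMod 8, {v : ℂ × ℝ | xx k v.1 ≤ 60 / 61} := by
    ext v
    simp [SSet]
  rw [this]
  refine (isClosed_eq ((continuous_fst.norm.pow 2).add (continuous_snd.pow 2))
    continuous_const).inter ?_
  exact isClosed_iInter fun k => isClosed_le ((continuous_xx k).comp continuous_fst)
    continuous_const

lemma isCompact_SSet : IsCompact SSet := by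
  apply IsCompact.of_isClosed_subset (isCompact_closedBall (0 : ℂ × ℝ) 1) isClosed_SSet
  intro v hv
  have h := hv.1
  rw [mem_closedBall_zero_iff, Prod.norm_def]
  apply max_le
  · have := norm_nonneg v.1
    nlinarith [sq_nonneg v.2]
  · rw [Real.norm_eq_abs, abs_le]
    constructor <;> nlinarith [sq_nonneg ‖v.1‖]

instance : CompactSpace S := isCompact_iff_compactSpace.mp isCompact_SSet

/-! ### the cone over `S` -/

/-- homogeneous form of the condition of being outside of the `k`-th cap -/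
def Out (k : ZMod 8) (v : ℂ × ℝ) : Prop := 11 * xx k v.1 ≤ 60 * Real.sqrt (yy k v.1 ^ 2 + v.2 ^ 2)

/-- squared form -/
lemma out_iff (k : ZMod 8) (v : ℂ × ℝ) :
    Out k v ↔ (0 ≤ xx k v.1 → 121 * xx k v.1 ^ 2 ≤ 3600 * (yy k v.1 ^ 2 + v.2 ^ 2)) := by
  unfold Out
  have hs := Real.sqrt_nonneg (yy k v.1 ^ 2 + v.2 ^ 2)
  have hs2 : Real.sqrt (yy k v.1 ^ 2 + v.2 ^ 2) ^ 2 = yy k v.1 ^ 2 + v.2 ^ 2 :=
    Real.sq_sqrt (by positivity)
  constructor
  · intro h h0
    nlinarith
  · intro h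
    by_cases h0 : 0 ≤ xx k v.1
    · have h1 := h h0
      have h2 : (11 * xx k v.1) ^ 2 ≤ (60 * Real.sqrt (yy k v.1 ^ 2 + v.2 ^ 2)) ^ 2 := by
        nlinarith
      exact (sq_le_sq₀ (by positivity) (by positivity)).mp h2
    · push Not at h0
      nlinarith

/-- on the unit sphere, the homogeneous condition is the original one -/
lemma out_iff_of_sphere (k : ZMod 8) {v : ℂ × ℝ} (h : ‖v.1‖ ^ 2 + v.2 ^ 2 = 1) :
    Out k v ↔ xx k v.1 ≤ 60 / 61 := by
  rw [out_iff]
  have h1 := xx_sq_add_yy_sq k v.1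
  constructor
  · intro h2
    by_contra h3
    push Not at h3
    have h4 := h2 (by linarith)
    nlinarith
  · intro h2 h3
    nlinarith

/-- the Euclidean norm -/
noncomputable def en (v : ℂ × ℝ) : ℝ := Real.sqrt (‖v.1‖ ^ 2 + v.2 ^ 2)

lemma en_sq (v : ℂ × ℝ) : en v ^ 2 = ‖v.1‖ ^ 2 + v.2 ^ 2 := Real.sq_sqrt (by positivity)

lemma en_nonneg (v : ℂ × ℝ) : 0 ≤ en v := Real.sqrt_nonneg _

lemma en_pos {v : ℂ × ℝ} (h : v ≠ 0) : 0 < en v := by
  apply Real.sqrt_pos.mpr
  by_contra h0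
  push Not at h0
  apply h
  have h1 : ‖v.1‖ ^ 2 = 0 := by nlinarith [sq_nonneg ‖v.1‖, sq_nonneg v.2]
  have h2 : v.2 ^ 2 = 0 := by nlinarith [sq_nonneg ‖v.1‖, sq_nonneg v.2]
  ext1
  · simpa using h1
  · simpa using h2

lemma continuous_en : Continuous en :=
  ((continuous_fst.norm.pow 2).add (continuous_snd.pow 2)).sqrt

/-- normalization -/
noncomputable def nrm (v : ℂ × ℝ) : ℂ × ℝ := (en v)⁻¹ • v

lemma out_smul {k : ZMod 8} {r : ℝ} (hr : 0 ≤ r) {v : ℂ × ℝ} (h : Out k v) : Out k (r • v) := by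
  rw [out_iff] at h ⊢
  simp only [Prod.smul_fst, Prod.smul_snd, xx_smul, yy_smul, smul_eq_mul]
  intro h0
  rcases hr.eq_or_lt with h1 | h1
  · rw [← h1]; simp
  · have h2 : 0 ≤ xx k v.1 := by
      by_contra h3
      push Not at h3
      nlinarith
    have h3 := h h2
    have h4 : 0 ≤ r ^ 2 := by positivity
    nlinarith

lemma nrm_mem {v : ℂ × ℝ} (h0 : v ≠ 0) (h : ∀ k, Out k v) : nrm v ∈ SSet := by
  have hp := en_pos h0
  have h1 : ‖(nrm v).1‖ ^ 2 + (nrm v).2 ^ 2 = 1 := by
    simp only [nrm, Prod.smul_fst, Prod.smul_snd, norm_smul, smul_eq_mul, norm_inv,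
      Real.norm_eq_abs, abs_of_pos hp]
    have := en_sq v
    field_simp
    linarith
  refine ⟨h1, fun k => ?_⟩
  rw [← out_iff_of_sphere k h1]
  exact out_smul (inv_nonneg.mpr hp.le) (h k)

lemma en_eq_one (v : S) : en v.1 = 1 := by
  rw [en, v.2.1, Real.sqrt_one]

lemma nrm_eq_self (v : S) : nrm v.1 = v.1 := by
  rw [nrm, en_eq_one, inv_one, one_smul]

lemma out_S (v : S) (k : ZMod 8) : Out k v.1 := (out_iff_of_sphere k v.2.1).mpr (v.2.2 k)

lemma S_ne_zero (v : S) : v.1 ≠ 0 := by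
  intro h
  have := v.2.1
  rw [h] at this
  simp at this

lemma nrm_smul {r : ℝ} (hr : 0 < r) (v : ℂ × ℝ) : nrm (r • v) = nrm v := by
  have h : en (r • v) = r * en v := by
    unfold en
    simp only [Prod.smul_fst, Prod.smul_snd, norm_smul, smul_eq_mul, Real.norm_eq_abs,
      abs_of_pos hr]
    rw [show (r * ‖v.1‖) ^ 2 + (r * v.2) ^ 2 = r ^ 2 * (‖v.1‖ ^ 2 + v.2 ^ 2) by ring,
      Real.sqrt_mul (by positivity), Real.sqrt_sq hr.le]
  rw [nrm, h, nrm, smul_smul]
  congr 1
  field_simp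

/-- a map to `S` from a map to the cone -/
noncomputable def mkS {Y : Type} [TopologicalSpace Y] (G : Y → ℂ × ℝ) (hG : Continuous G)
    (h0 : ∀ y, G y ≠ 0) (h : ∀ y k, Out k (G y)) : C(Y, S) where
  toFun y := ⟨nrm (G y), nrm_mem (h0 y) (h y)⟩
  continuous_toFun := by
    apply Continuous.subtype_mk
    unfold nrm
    exact (Continuous.inv₀ (continuous_en.comp hG) fun y => (en_pos (h0 y)).ne').smul hG

lemma mkS_val {Y : Type} [TopologicalSpace Y] (G : Y → ℂ × ℝ) (hG : Continuous G)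
    (h0 : ∀ y, G y ≠ 0) (h : ∀ y k, Out k (G y)) (y : Y) :
    (mkS G hG h0 h y : ℂ × ℝ) = nrm (G y) := rfl

/-- straight-line homotopies -/
lemma homotopic_mkS {Y : Type} [TopologicalSpace Y] (G G' : Y → ℂ × ℝ) (hG : Continuous G)
    (hG' : Continuous G') (h0 : ∀ y, ∀ s ∈ Icc (0 : ℝ) 1, (1 - s) • G y + s • G' y ≠ 0)
    (h : ∀ y, ∀ s ∈ Icc (0 : ℝ) 1, ∀ k, Out k ((1 - s) • G y + s • G' y))
    (f g : C(Y, S)) (hf : ∀ y, (f y : ℂ × ℝ) = nrm (G y)) (hg : ∀ y, (g y : ℂ × ℝ) = nrm (G' y)) :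
    ContinuousMap.Homotopic f g := by
  let H : unitInterval × Y → ℂ × ℝ := fun p => (1 - (p.1 : ℝ)) • G p.2 + (p.1 : ℝ) • G' p.2
  have hH : Continuous H := by
    apply Continuous.add
    · exact (continuous_const.sub (continuous_subtype_val.comp continuous_fst)).smul
        (hG.comp continuous_snd)
    · exact (continuous_subtype_val.comp continuous_fst).smul (hG'.comp continuous_snd)
  refine ⟨⟨mkS H hH (fun p => h0 p.2 _ p.1.2) (fun p => h p.2 _ p.1.2), ?_, ?_⟩⟩
  · intro y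
    apply Subtype.ext
    change nrm (H (0, y)) = _
    rw [hf]
    simp [H]
  · intro y
    apply Subtype.ext
    change nrm (H (1, y)) = _
    rw [hg]
    simp [H]

end Pool.Agent.Helper57.MCG
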