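import Pool.Agent.Helper57.MCG.Nontriv

/-!
# Rotations and Dehn twists
-/

set_option autoImplicit false

open Set Topology

namespace Pool.Agent.Helper57.MCG

/-! ### general facts -/

section general

variable {X : Type} [TopologicalSpace X]

lemma nontrivial_image {B c : Set X} (h : X ≃ₜ X) (hB : ∀ x, h x ∈ B ↔ x ∈ B)
    (hc : IsNontrivialCircle B c) : IsNontrivialCircle B (h '' c) := by
  obtain ⟨⟨⟨γ, hγ, hr⟩, hd⟩, h1, h2⟩ := hc
  refine ⟨⟨⟨(h : C(X, X)).comp γ, h.injective.comp hγ, ?_⟩, ?_⟩, ?_, ?_⟩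
  · rw [← hr, ← Set.range_comp]
    rfl
  · rw [Set.disjoint_left] at hd ⊢
    rintro _ ⟨x, hx, rfl⟩ hxB
    exact hd hx ((hB x).mp hxB)
  · rintro ⟨d, hd1, hd2⟩
    apply h1
    refine ⟨(h.symm : C(X, X)).comp d, h.symm.injective.comp hd1, ?_⟩
    have : ((h.symm : C(X, X)).comp d : _ → X) = h.symm ∘ d := rfl
    rw [this, Set.image_comp, hd2, ← Set.image_comp]
    have e1 : (h.symm ∘ h : X → X) = id := by
      funext x
      exact h.symm_apply_apply x
    rw [e1, Set.image_id]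
  · rintro ⟨H, hH0, hH1⟩
    apply h2
    refine ⟨⟨fun p => h.symm (H (p.1, ⟨h p.2, mem_image_of_mem h p.2.2⟩)), ?_⟩, ?_, ?_⟩
    · apply h.symm.continuous.comp
      apply H.continuous.comp
      apply continuous_fst.prodMk
      apply Continuous.subtype_mk
      exact h.continuous.comp (continuous_subtype_val.comp continuous_snd)
    · intro x
      change h.symm (H (0, _)) = x
      rw [hH0]
      exact h.symm_apply_apply x
    · intro x
      change h.symm (H (1, _)) ∈ B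
      rw [← hB, h.apply_symm_apply]
      exact hH1 _

lemma twist_inv {B a : Set X} {T : X ≃ₜ X} (hT : IsDehnTwist B a T) : IsDehnTwist B a T⁻¹ := by
  obtain ⟨φ, h1, h2, h3, h4, h5⟩ := hT
  have hφ : ∀ p : Circle × unitInterval, φ p = φ (p.1, p.2) := fun p => rfl
  refine ⟨φ.comp ⟨fun p => (p.1⁻¹, p.2), by fun_prop⟩, ?_, ?_, ?_, ?_, ?_⟩
  · intro p p' h
    have := h1 h
    simp only [ContinuousMap.coe_mk, Prod.mk.injEq, inv_inj] at this
    exact Prod.ext this.1 this.2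
  · apply h2.mono_left
    rintro _ ⟨p, rfl⟩
    exact ⟨_, rfl⟩
  · rw [← h3]
    ext x
    constructor
    · rintro ⟨p, hp, rfl⟩
      exact ⟨(p.1⁻¹, p.2), hp, rfl⟩
    · rintro ⟨p, hp, rfl⟩
      exact ⟨(p.1⁻¹, p.2), hp, by simp⟩
  · intro p
    change T.symm (φ (p.1⁻¹, p.2)) = φ ((p.1 * Circle.exp (2 * Real.pi * p.2))⁻¹, p.2)
    rw [Homeomorph.symm_apply_eq, h4]
    congr 1
    ext1
    · simp only
      rw [mul_inv, mul_assoc, inv_mul_cancel, mul_one]
    · rfl
  · intro x hx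
    change T.symm x = x
    rw [Homeomorph.symm_apply_eq]
    symm
    apply h5
    rintro ⟨p, rfl⟩
    exact hx ⟨(p.1⁻¹, p.2), by simp⟩

lemma twist_conj {B a : Set X} {T : X ≃ₜ X} (hT : IsDehnTwist B a T) (h : X ≃ₜ X)
    (hB : ∀ x, h x ∈ B ↔ x ∈ B) : IsDehnTwist B (h '' a) (h * T * h⁻¹) := by
  obtain ⟨φ, h1, h2, h3, h4, h5⟩ := hT
  refine ⟨(h : C(X, X)).comp φ, h.injective.comp h1, ?_, ?_, ?_, ?_⟩
  · rw [Set.disjoint_left] at h2 ⊢
    rintro _ ⟨p, rfl⟩ hx
    exact h2 ⟨p, rfl⟩ ((hB _).mp hx)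
  · rw [← h3, ← Set.image_comp]
    rfl
  · intro p
    change h (T (h.symm (h (φ p)))) = h (φ _)
    rw [h.symm_apply_apply, h4]
  · intro x hx
    change h (T (h.symm x)) = x
    rw [h5, h.apply_symm_apply]
    rintro ⟨p, hp⟩
    apply hx
    refine ⟨p, ?_⟩
    change h (φ p) = x
    rw [hp, h.apply_symm_apply]

end general

/-! ### rotations -/

lemma rot_mem (j : ZMod 8) {v : ℂ × ℝ} (hv : v ∈ SSet) : ((v.1 * dir j, v.2) : ℂ × ℝ) ∈ SSet := by
  refine ⟨?_, fun k => ?_⟩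
  · simp only [norm_mul, norm_dir, mul_one]
    exact hv.1
  · have := xx_mul_dir (k - j) j v.1
    rw [sub_add_cancel] at this
    rw [this]
    exact hv.2 _

/-- rotation by `j` eighths of a turn -/
noncomputable def rot (j : ZMod 8) : S ≃ₜ S where
  toFun v := ⟨(v.1.1 * dir j, v.1.2), rot_mem j v.2⟩
  invFun v := ⟨(v.1.1 * dir (-j), v.1.2), rot_mem (-j) v.2⟩
  left_inv v := by
    apply Subtype.ext
    ext1
    · simp only
      rw [mul_assoc, ← dir_add, add_neg_cancel, dir_zero, mul_one]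
    · rfl
  right_inv v := by
    apply Subtype.ext
    ext1
    · simp only
      rw [mul_assoc, ← dir_add, neg_add_cancel, dir_zero, mul_one]
    · rfl
  continuous_toFun := by
    apply Continuous.subtype_mk
    fun_prop
  continuous_invFun := by
    apply Continuous.subtype_mk
    fun_prop

lemma rot_val (j : ZMod 8) (v : S) : (rot j v : ℂ × ℝ) = (v.1.1 * dir j, v.1.2) := rfl

lemma rot_zero : rot 0 = 1 := by
  ext v : 1
  apply Subtype.ext
  rw [rot_val, dir_zero, mul_one]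
  rfl

lemma rot_add (i j : ZMod 8) : rot (i + j) = rot i * rot j := by
  ext v : 1
  apply Subtype.ext
  change (v.1.1 * dir (i + j), v.1.2) = (v.1.1 * dir j * dir i, v.1.2)
  rw [dir_add]
  ext1
  · simp only; ring
  · rfl

lemma rot_pow (j : ZMod 8) (n : ℕ) : rot j ^ n = rot (n * j) := by
  induction n with
  | zero => rw [pow_zero, Nat.cast_zero, zero_mul, rot_zero]
  | succ n ih => rw [pow_succ, ih, ← rot_add]; congr 1; push_cast; ring

lemma xx_rot (k j : ZMod 8) (v : S) : xx (k + j) (rot j v).1.1 = xx k v.1.1 := by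
  rw [rot_val]
  exact xx_mul_dir k j v.1.1

lemma rot_bd (j : ZMod 8) (v : S) : rot j v ∈ bdS ↔ v ∈ bdS := by
  constructor
  · rintro ⟨k, hk⟩
    refine ⟨k - j, ?_⟩
    rw [← xx_rot (k - j) j v, sub_add_cancel]
    exact hk
  · rintro ⟨k, hk⟩
    exact ⟨k + j, by rw [xx_rot]; exact hk⟩

lemma rot_alpha (i j : ZMod 8) : rot j '' alpha i = alpha (i + j) := by
  ext v
  constructor
  · rintro ⟨v, hv, rfl⟩
    change xx (i + j) (rot j v).1.1 = 1 / 2
    rw [xx_rot]
    exact hv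
  · intro hv
    refine ⟨(rot j).symm v, ?_, (rot j).apply_symm_apply v⟩
    change xx i ((rot j).symm v).1.1 = 1 / 2
    rw [← xx_rot i j, (rot j).apply_symm_apply]
    exact hv

/-! ### the basic twist -/

/-- rotation of the last two coordinates by an angle depending on the first one -/
noncomputable def tw (θ : ℝ → ℝ) (v : ℂ × ℝ) : ℂ × ℝ :=
  (⟨v.1.re, ((⟨v.1.im, v.2⟩ : ℂ) * Circle.exp (θ v.1.re)).re⟩,
    ((⟨v.1.im, v.2⟩ : ℂ) * Circle.exp (θ v.1.re)).im)

lemma tw_sphere (θ : ℝ → ℝ) {v : ℂ × ℝ} (h : ‖v.1‖ ^ 2 + v.2 ^ 2 = 1) :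
    ‖(tw θ v).1‖ ^ 2 + (tw θ v).2 ^ 2 = 1 := by
  set p : ℂ := (⟨v.1.im, v.2⟩ : ℂ) * Circle.exp (θ v.1.re) with hp
  have h1 : p.re ^ 2 + p.im ^ 2 = v.1.im ^ 2 + v.2 ^ 2 := by
    have h2 : ‖p‖ = ‖(⟨v.1.im, v.2⟩ : ℂ)‖ := by
      rw [hp, norm_mul, Circle.norm_coe, mul_one]
    have h3 : Complex.normSq p = Complex.normSq (⟨v.1.im, v.2⟩ : ℂ) := by
      rw [Complex.normSq_eq_norm_sq, Complex.normSq_eq_norm_sq, h2]
    rw [Complex.normSq_apply, Complex.normSq_apply] at h3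
    simp only at h3
    nlinarith
  rw [← Complex.normSq_eq_norm_sq, Complex.normSq_apply] at h ⊢
  change v.1.re * v.1.re + p.re * p.re + p.im ^ 2 = 1
  nlinarith

lemma tw_tw (θ θ' : ℝ → ℝ) (h : ∀ x, θ x + θ' x = 0) (v : ℂ × ℝ) : tw θ' (tw θ v) = v := by
  have key : ((⟨(tw θ v).1.im, (tw θ v).2⟩ : ℂ)) = (⟨v.1.im, v.2⟩ : ℂ) * Circle.exp (θ v.1.re) := by
    apply Complex.ext <;> rfl
  have key2 : (⟨(tw θ v).1.im, (tw θ v).2⟩ : ℂ) * Circle.exp (θ' (tw θ v).1.re) =
      (⟨v.1.im, v.2⟩ : ℂ) := by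
    rw [key]
    have e1 : (tw θ v).1.re = v.1.re := rfl
    rw [e1, mul_assoc, ← Circle.coe_mul, ← Circle.exp_add, h, Circle.exp_zero, Circle.coe_one,
      mul_one]
  ext1
  · apply Complex.ext
    · rfl
    · change ((⟨(tw θ v).1.im, (tw θ v).2⟩ : ℂ) * Circle.exp (θ' (tw θ v).1.re)).re = _
      rw [key2]
  · change ((⟨(tw θ v).1.im, (tw θ v).2⟩ : ℂ) * Circle.exp (θ' (tw θ v).1.re)).im = _
    rw [key2]

lemma tw_id (θ : ℝ → ℝ) {v : ℂ × ℝ} (h : Circle.exp (θ v.1.re) = 1) : tw θ v = v := by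
  unfold tw
  rw [h, Circle.coe_one, mul_one]

lemma continuous_tw {θ : ℝ → ℝ} (h : Continuous θ) : Continuous (tw θ) := by
  have h1 : Continuous (fun v : ℂ × ℝ => v.1.re) := Complex.continuous_re.comp continuous_fst
  have h2 : Continuous (fun v : ℂ × ℝ => v.1.im) := Complex.continuous_im.comp continuous_fst
  have h3 : Continuous (fun v : ℂ × ℝ => (⟨v.1.im, v.2⟩ : ℂ)) := by
    have : (fun v : ℂ × ℝ => (⟨v.1.im, v.2⟩ : ℂ)) =
        fun v => ((v.1.im : ℝ) : ℂ) + ((v.2 : ℝ) : ℂ) * Complex.I := by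
      funext v
      apply Complex.ext <;> simp
    rw [this]
    exact (Complex.continuous_ofReal.comp h2).add
      ((Complex.continuous_ofReal.comp continuous_snd).mul continuous_const)
  have h4 : Continuous (fun v : ℂ × ℝ => ((⟨v.1.im, v.2⟩ : ℂ) * Circle.exp (θ v.1.re))) :=
    h3.mul (continuous_coeC.comp (Circle.exp.continuous.comp (h.comp h1)))
  unfold tw
  refine Continuous.prodMk ?_ (Complex.continuous_im.comp h4)
  have h5 : (fun v : ℂ × ℝ =>
      (⟨v.1.re, ((⟨v.1.im, v.2⟩ : ℂ) * Circle.exp (θ v.1.re)).re⟩ : ℂ)) =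
      fun v => ((v.1.re : ℝ) : ℂ) +
        ((((⟨v.1.im, v.2⟩ : ℂ) * Circle.exp (θ v.1.re)).re : ℝ) : ℂ) * Complex.I := by
    funext v
    exact Complex.mk_eq_add_mul_I _ _
  rw [h5]
  exact (Complex.continuous_ofReal.comp h1).add
    ((Complex.continuous_ofReal.comp (Complex.continuous_re.comp h4)).mul continuous_const)

/-- the angle function of the twist -/
noncomputable def ang (x : ℝ) : ℝ := 2 * Real.pi * max 0 (min 1 (11 / 2 - 10 * x))

lemma continuous_ang : Continuous ang := by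
  unfold ang
  fun_prop

lemma ang_of_le {x : ℝ} (h : x ≤ 9 / 20) : Circle.exp (ang x) = 1 := by
  unfold ang
  rw [min_eq_left (by linarith), max_eq_right zero_le_one, mul_one, Circle.exp_two_pi]

lemma ang_of_ge {x : ℝ} (h : 11 / 20 ≤ x) : Circle.exp (ang x) = 1 := by
  unfold ang
  rw [max_eq_left ((min_le_right _ _).trans (by linarith)), mul_zero, Circle.exp_zero]

lemma ang_band {s : ℝ} (h0 : 0 ≤ s) (h1 : s ≤ 1) : ang (11 / 20 - s / 10) = 2 * Real.pi * s := by
  unfold ang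
  rw [show 11 / 2 - 10 * (11 / 20 - s / 10) = s by ring, min_eq_right h1, max_eq_right h0]

lemma tw_mem {θ : ℝ → ℝ} (h1 : ∀ x, x ≤ 9 / 20 → Circle.exp (θ x) = 1)
    (h2 : ∀ x, 11 / 20 ≤ x → Circle.exp (θ x) = 1) {v : ℂ × ℝ} (hv : v ∈ SSet) :
    tw θ v ∈ SSet := by
  by_cases ha : v.1.re ≤ 9 / 20
  · rw [tw_id θ (h1 _ ha)]
    exact hv
  · by_cases hb : 11 / 20 ≤ v.1.re
    · rw [tw_id θ (h2 _ hb)]
      exact hv
    · push Not at ha hb
      apply band_mem (tw_sphere θ hv.1)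
      · rw [xx_zero]; exact ha.le
      · rw [xx_zero]; exact hb.le

/-- the basic Dehn twist -/
noncomputable def T0 : S ≃ₜ S where
  toFun v := ⟨tw ang v.1, tw_mem (fun _ => ang_of_le) (fun _ => ang_of_ge) v.2⟩
  invFun v := ⟨tw (fun x => -ang x) v.1, tw_mem
    (fun _ h => by rw [Circle.exp_neg, ang_of_le h, inv_one])
    (fun _ h => by rw [Circle.exp_neg, ang_of_ge h, inv_one]) v.2⟩
  left_inv v := Subtype.ext (tw_tw ang (fun x => -ang x) (fun x => by ring) v.1)
  right_inv v := Subtype.ext (tw_tw (fun x => -ang x) ang (fun x => by ring) v.1)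
  continuous_toFun := by
    apply Continuous.subtype_mk
    exact (continuous_tw continuous_ang).comp continuous_subtype_val
  continuous_invFun := by
    apply Continuous.subtype_mk
    exact (continuous_tw continuous_ang.neg).comp continuous_subtype_val

lemma T0_val (v : S) : (T0 v : ℂ × ℝ) = tw ang v.1 := rfl

/-- the band supporting the basic twist -/
def band (i : ZMod 8) : Set S := {v | 9 / 20 ≤ xx i v.1.1 ∧ xx i v.1.1 ≤ 11 / 20}

lemma T0_id {v : S} (h : v ∉ band 0) : T0 v = v := by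
  apply Subtype.ext
  rw [T0_val]
  apply tw_id
  by_cases h1 : v.1.1.re ≤ 9 / 20
  · exact ang_of_le h1
  · apply ang_of_ge
    by_contra h2
    push Not at h1 h2
    apply h
    constructor
    · rw [xx_zero]; exact h1.le
    · rw [xx_zero]; exact h2.le

lemma T0_band {v : S} (h : v ∈ band 0) : T0 v ∈ band 0 := by
  have h1 : xx 0 (T0 v).1.1 = xx 0 v.1.1 := by rw [xx_zero, xx_zero]; rfl
  constructor
  · rw [h1]; exact h.1
  · rw [h1]; exact h.2

/-- the annulus around the first circle -/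
noncomputable def ann : C(Circle × unitInterval, S) where
  toFun p := ⟨lev (11 / 20 - (p.2 : ℝ) / 10) p.1,
    lev_mem (by have := p.2.2.2; linarith) (by have := p.2.2.1; linarith) (Circle.norm_coe _)⟩
  continuous_toFun := by
    apply Continuous.subtype_mk
    refine continuous_lev.comp (Continuous.prodMk ?_ (continuous_coeC.comp continuous_fst))
    exact continuous_const.sub ((continuous_subtype_val.comp continuous_snd).div_const _)

lemma ann_val (p : Circle × unitInterval) :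
    (ann p : ℂ × ℝ) = lev (11 / 20 - (p.2 : ℝ) / 10) p.1 := rfl

lemma level_bounds (s : unitInterval) :
    9 / 20 ≤ 11 / 20 - (s : ℝ) / 10 ∧ 11 / 20 - (s : ℝ) / 10 ≤ 11 / 20 := by
  have h0 := s.2.1
  have h1 := s.2.2
  constructor <;> linarith

lemma sqrt_level_pos {x : ℝ} (h1 : 9 / 20 ≤ x) (h2 : x ≤ 11 / 20) :
    0 < Real.sqrt (1 - x ^ 2) := Real.sqrt_pos.mpr (by nlinarith)

lemma ann_injective : Function.Injective ann := by
  rintro ⟨u, s⟩ ⟨u', s'⟩ h
  have h1 : lev (11 / 20 - (s : ℝ) / 10) (u : ℂ) = lev (11 / 20 - (s' : ℝ) / 10) (u' : ℂ) :=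
    congrArg Subtype.val h
  have h2 : 11 / 20 - (s : ℝ) / 10 = 11 / 20 - (s' : ℝ) / 10 := by
    have := congrArg (fun v : ℂ × ℝ => v.1.re) h1
    exact this
  have hs : (s : ℝ) = s' := by linarith
  rw [h2] at h1
  have hp := sqrt_level_pos (level_bounds s').1 (level_bounds s').2
  have h3 : (lev (11 / 20 - (s' : ℝ) / 10) (u : ℂ)).1.im =
      (lev (11 / 20 - (s' : ℝ) / 10) (u' : ℂ)).1.im := by rw [h1]
  have h4 : (lev (11 / 20 - (s' : ℝ) / 10) (u : ℂ)).2 =
      (lev (11 / 20 - (s' : ℝ) / 10) (u' : ℂ)).2 := by rw [h1]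
  simp only [lev] at h3 h4
  ext1
  · apply Circle.ext
    apply Complex.ext
    · exact mul_left_cancel₀ hp.ne' h3
    · exact mul_left_cancel₀ hp.ne' h4
  · exact Subtype.ext hs

lemma band_sub_range {v : S} (h : v ∈ band 0) : ∃ (s : unitInterval) (u : Circle),
    v = ann (u, s) ∧ xx 0 v.1.1 = 11 / 20 - (s : ℝ) / 10 := by
  obtain ⟨h1, h2⟩ := h
  set x := xx 0 v.1.1 with hx
  have hp := sqrt_level_pos h1 h2
  have hs : Real.sqrt (1 - x ^ 2) ^ 2 = 1 - x ^ 2 := Real.sq_sqrt (by nlinarith)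
  set r := Real.sqrt (1 - x ^ 2) with hr
  have e1 := xx_sq_add_yy_sq 0 v.1.1
  have e2 := v.2.1
  rw [← hx] at e1
  have hnorm : ‖(⟨yy 0 v.1.1 / r, v.1.2 / r⟩ : ℂ)‖ = 1 := by
    have : ‖(⟨yy 0 v.1.1 / r, v.1.2 / r⟩ : ℂ)‖ ^ 2 = 1 := by
      rw [← Complex.normSq_eq_norm_sq, Complex.normSq_apply]
      simp only
      field_simp
      nlinarith
    have h3 := norm_nonneg (⟨yy 0 v.1.1 / r, v.1.2 / r⟩ : ℂ)
    nlinarith
  obtain ⟨u, hu⟩ : ∃ u : Circle, (u : ℂ) = ⟨yy 0 v.1.1 / r, v.1.2 / r⟩ :=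
    ⟨⟨⟨yy 0 v.1.1 / r, v.1.2 / r⟩, mem_sphere_zero_iff_norm.mpr hnorm⟩, rfl⟩
  refine ⟨⟨11 / 2 - 10 * x, by constructor <;> linarith⟩, u, ?_, by simp only; ring⟩
  apply Subtype.ext
  rw [ann_val]
  simp only
  rw [show 11 / 20 - (11 / 2 - 10 * x) / 10 = x by ring, hu]
  unfold lev
  rw [← hr]
  ext1
  · apply Complex.ext
    · change _ = x
      rw [hx, xx_zero]
    · change _ = r * (yy 0 v.1.1 / r)
      rw [mul_div_cancel₀ _ hp.ne', yy_zero]
  · change _ = r * (v.1.2 / r)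
    rw [mul_div_cancel₀ _ hp.ne']

lemma xx_ann (p : Circle × unitInterval) : xx 0 (ann p).1.1 = 11 / 20 - (p.2 : ℝ) / 10 :=
  xx_lev _ _

/-- the basic twist is a Dehn twist -/
lemma isDehnTwist_T0 : IsDehnTwist bdS (alpha 0) T0 := by
  refine ⟨ann, ann_injective, ?_, ?_, ?_, ?_⟩
  · rw [Set.disjoint_left]
    rintro _ ⟨p, rfl⟩ ⟨k, hk⟩
    have := band_xx (ann p).2.1 (by rw [xx_ann]; exact (level_bounds p.2).1)
      (by rw [xx_ann]; exact (level_bounds p.2).2) k
    linarith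
  · ext v
    constructor
    · rintro ⟨p, hp, rfl⟩
      have hp : (p.2 : ℝ) = 1 / 2 := hp
      change xx 0 (ann p).1.1 = 1 / 2
      rw [xx_ann, hp]
      norm_num
    · intro hv
      have hv : xx 0 v.1.1 = 1 / 2 := hv
      obtain ⟨s, u, h1, h2⟩ := band_sub_range (v := v)
        (by constructor <;> rw [hv] <;> norm_num)
      refine ⟨(u, s), ?_, h1.symm⟩
      change (s : ℝ) = 1 / 2
      rw [hv] at h2
      linarith
  · rintro ⟨u, s⟩
    apply Subtype.ext
    rw [T0_val, ann_val, ann_val]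
    simp only
    set x := 11 / 20 - (s : ℝ) / 10 with hx
    have h1 : (⟨(lev x u).1.im, (lev x u).2⟩ : ℂ) =
        ((Real.sqrt (1 - x ^ 2) : ℝ) : ℂ) * (u : ℂ) := by
      apply Complex.ext <;> simp [lev]
    have h2 : ang (lev x (u : ℂ)).1.re = 2 * Real.pi * s := by
      change ang x = _
      rw [hx, ang_band s.2.1 s.2.2]
    unfold tw
    rw [h1, h2, mul_assoc, ← Circle.coe_mul]
    unfold lev
    ext1
    · apply Complex.ext
      · rfl
      · simp
    · simp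
  · intro x hx
    apply T0_id
    intro h
    obtain ⟨s, u, h1, -⟩ := band_sub_range h
    exact hx ⟨_, h1.symm⟩

/-- the bands of the circles `0` and `3` are disjoint -/
lemma bands_disjoint {v : S} (h0 : v ∈ band 0) (h3 : v ∈ band 3) : False := by
  have hq := q_pos
  have hq1 := q_lt
  obtain ⟨a1, a2⟩ := h0
  obtain ⟨b1, b2⟩ := h3
  have e1 := xx_sq_add_yy_sq 0 v.1.1
  have e2 := v.2.1
  rw [show (3 : ZMod 8) = 0 + 3 by decide, xx_add_three] at b1 b2
  have e3 : 63 / 100 ≤ yy 0 v.1.1 - xx 0 v.1.1 := by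
    by_contra h
    push Not at h
    nlinarith
  have e4 : 1 ≤ yy 0 v.1.1 := by linarith
  nlinarith [sq_nonneg v.1.2]

lemma alpha_disjoint : Disjoint (alpha 0) (alpha 3) := by
  rw [Set.disjoint_left]
  intro v h0 h3
  have h0 : xx 0 v.1.1 = 1 / 2 := h0
  have h3 : xx 3 v.1.1 = 1 / 2 := h3
  exact bands_disjoint (v := v) (by constructor <;> rw [h0] <;> norm_num)
    (by constructor <;> rw [h3] <;> norm_num)

/-- the second twist -/
noncomputable def T3 : S ≃ₜ S := rot 3 * T0⁻¹ * (rot 3)⁻¹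

lemma band_rot {v : S} : v ∈ band 3 ↔ (rot 3).symm v ∈ band 0 := by
  have h : xx 3 v.1.1 = xx 0 ((rot 3).symm v).1.1 := by
    have := xx_rot 0 3 ((rot 3).symm v)
    rw [(rot 3).apply_symm_apply, zero_add] at this
    exact this
  unfold band
  simp only [mem_ofPred_eq, h]

lemma T0inv_id {v : S} (h : v ∉ band 0) : T0.symm v = v := by
  rw [Homeomorph.symm_apply_eq, T0_id h]

lemma T0inv_band {v : S} (h : v ∈ band 0) : T0.symm v ∈ band 0 := by
  by_contra h1
  have h2 := T0_id h1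
  rw [T0.apply_symm_apply] at h2
  rw [← h2] at h1
  exact h1 h

lemma T3_id {v : S} (h : v ∉ band 3) : T3 v = v := by
  change rot 3 (T0.symm ((rot 3).symm v)) = v
  rw [band_rot] at h
  rw [T0inv_id h, (rot 3).apply_symm_apply]

lemma T3_band {v : S} (h : v ∈ band 3) : T3 v ∈ band 3 := by
  change rot 3 (T0.symm ((rot 3).symm v)) ∈ band 3
  rw [band_rot, (rot 3).symm_apply_apply]
  rw [band_rot] at h
  exact T0inv_band h

lemma commute_T : Commute T0 T3 := by
  ext v : 1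
  change T0 (T3 v) = T3 (T0 v)
  by_cases h0 : v ∈ band 0
  · have h3 : v ∉ band 3 := fun h => bands_disjoint h0 h
    have h4 : T0 v ∉ band 3 := fun h => bands_disjoint (T0_band h0) h
    rw [T3_id h3, T3_id h4]
  · rw [T0_id h0]
    apply T0_id
    intro h1
    by_cases h3 : v ∈ band 3
    · exact bands_disjoint h1 (T3_band h3)
    · rw [T3_id h3] at h1
      exact h0 h1

end Pool.Agent.Helper57.MCG
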